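import Mathlib

/-! Schubert varieties in the flag variety of `ℂⁿ`, their local rings at the fixed points `e_u`,
and multiplicities. -/

namespace Pool.Agent.Hhelper18.MultSch

open MvPolynomial

/-! ### Hilbert-Samuel multiplicity -/

/-- `Q` is the Hilbert-Samuel polynomial of the local ring `R` with maximal ideal `m`:
`length (R / m ^ (k + 1)) = Q k` for all large `k`. -/
def IsHilbertSamuel (R : Type) [CommRing R] (m : Ideal R) (Q : Polynomial ℚ) : Prop :=
  ∀ᶠ k : ℕ in Filter.atTop, ∃ N : ℕ, Module.length R (R ⧸ m ^ (k + 1)) = N ∧ Q.eval (k : ℚ) = N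

/-- The multiplicity of the local ring `R` with maximal ideal `m` is `e`: if
`Q = a_d x^d + ⋯ + a_0` is the Hilbert-Samuel polynomial, of degree `d`, then `e = d! a_d`. -/
def HasMult (R : Type) [CommRing R] (m : Ideal R) (e : ℕ) : Prop :=
  ∃ Q : Polynomial ℚ, IsHilbertSamuel R m Q ∧ (Q.natDegree.factorial : ℚ) * Q.leadingCoeff = e

/-- The ideal of the origin: the polynomials with constant coefficient zero. -/
noncomputable def org (σ : Type) : Ideal (MvPolynomial σ ℂ) :=
  RingHom.ker (constantCoeff : MvPolynomial σ ℂ →+* ℂ)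

instance (σ : Type) : (org σ).IsPrime := RingHom.ker_isPrime _

/-- The coordinate ring of the affine space with coordinates `σ`, localized at the origin. -/
abbrev AffLoc (σ : Type) : Type := Localization.AtPrime (org σ)

/-- The local ring at the origin of the closed subscheme of affine space with ideal `I`. -/
def LocRing {σ : Type} (I : Ideal (MvPolynomial σ ℂ)) : Type :=
  AffLoc σ ⧸ I.map (algebraMap (MvPolynomial σ ℂ) (AffLoc σ))

noncomputable instance {σ : Type} (I : Ideal (MvPolynomial σ ℂ)) : CommRing (LocRing I) :=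
  Ideal.Quotient.commRing _

/-- The quotient map onto the local ring. -/
noncomputable def LocRing.mk {σ : Type} (I : Ideal (MvPolynomial σ ℂ)) : AffLoc σ →+* LocRing I :=
  Ideal.Quotient.mk (I.map (algebraMap (MvPolynomial σ ℂ) (AffLoc σ)))

/-- The maximal ideal of the local ring. -/
noncomputable def locMax {σ : Type} (I : Ideal (MvPolynomial σ ℂ)) : Ideal (LocRing I) :=
  (IsLocalRing.maximalIdeal (AffLoc σ)).map (LocRing.mk I)

/-! ### Schubert varieties -/

variable {n : ℕ}

/-- `b` lies in the Borel subgroup `B` of invertible upper triangular matrices. -/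
def IsBorel (b : Matrix (Fin n) (Fin n) ℂ) : Prop := IsUnit b.det ∧ ∀ i j, j < i → b i j = 0

/-- The permutation matrix of `w`: its `j`-th column is the basis vector `e_{w j}`. -/
def permMat (w : Equiv.Perm (Fin n)) : Matrix (Fin n) (Fin n) ℂ :=
  Matrix.of fun i j => if i = w j then 1 else 0

/-- The double coset `B w B`, which is the preimage in `GL_n` of the cell `B e_w` of
`GL_n / B`. -/
def cell (w : Equiv.Perm (Fin n)) : Set (Matrix (Fin n) (Fin n) ℂ) :=
  {g | ∃ b c, IsBorel b ∧ IsBorel c ∧ g = b * permMat w * c}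

/-- The Zariski closure of `B w B` in the space of matrices. Its invertible elements form the
preimage in `GL_n` of the Schubert variety `X_w`, the closure of `B e_w` in `GL_n / B`. -/
def schubert (w : Equiv.Perm (Fin n)) : Set (Matrix (Fin n) (Fin n) ℂ) :=
  {g | ∀ F : MvPolynomial (Fin n × Fin n) ℂ, (∀ h ∈ cell w, eval (fun q => h q.1 q.2) F = 0) →
    eval (fun q => g q.1 q.2) F = 0}

/-- The positions below the diagonal. -/
abbrev Low (n : ℕ) : Type := {q : Fin n × Fin n // q.2 < q.1}

/-- The unipotent lower triangular matrix with the entries `z` below the diagonal. -/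
def unip (z : Low n → ℂ) : Matrix (Fin n) (Fin n) ℂ :=
  Matrix.of fun i j => if h : j < i then z ⟨(i, j), h⟩ else if i = j then 1 else 0

/-- The flags `u • unip z • B` form an open subset `Ω_u` of `GL_n / B`, an affine space with
coordinates `z` and with the point `e_u` at its origin. This is the ideal of `X_w ∩ Ω_u`. -/
noncomputable def chartIdeal (u w : Equiv.Perm (Fin n)) : Ideal (MvPolynomial (Low n) ℂ) :=
  vanishingIdeal ℂ {z | permMat u * unip z ∈ schubert w}

/-- The point `e_u` lies on `X_w`. -/
def PointMem (u w : Equiv.Perm (Fin n)) : Prop := permMat u ∈ schubert w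

/-- The multiplicity of `X_w` at the point `e_u` is `e`. -/
def MultAt (u w : Equiv.Perm (Fin n)) (e : ℕ) : Prop :=
  HasMult (LocRing (chartIdeal u w)) (locMax (chartIdeal u w)) e

/-- The set `M_3`: the multiplicity of `X_v` at some `e_u` with `u ≤ v` is at least `3`. -/
def M3 (v : Equiv.Perm (Fin n)) : Prop := ∃ u, PointMem u v ∧ ∃ e, 3 ≤ e ∧ MultAt u v e

/-- `w` contains the pattern `p`. -/
def Contains {n k : ℕ} (w : Equiv.Perm (Fin n)) (p : Equiv.Perm (Fin k)) : Prop :=
  ∃ f : Fin k → Fin n, StrictMono f ∧ ∀ i j, w (f i) < w (f j) ↔ p i < p j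

end Pool.Agent.Hhelper18.MultSch
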