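import Mathlib

/-! `LU` decomposition. -/

namespace Pool.Agent.Hhelper18.MultSch

/-- the leading principal submatrix -/
def lead {n : ℕ} {R : Type*} (A : Matrix (Fin n) (Fin n) R) (k : ℕ) (hk : k ≤ n) :
    Matrix (Fin k) (Fin k) R := A.submatrix (Fin.castLE hk) (Fin.castLE hk)

theorem exists_LU {K : Type*} [Field K] : ∀ {n : ℕ} (A : Matrix (Fin n) (Fin n) K),
    (∀ (k : ℕ) (hk : k ≤ n), (lead A k hk).det ≠ 0) →
    ∃ L U : Matrix (Fin n) (Fin n) K, (∀ i, L i i = 1) ∧ (∀ i j, i < j → L i j = 0) ∧
      (∀ i j, j < i → U i j = 0) ∧ A = L * U := by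
  intro n
  induction n with
  | zero =>
    intro A _
    exact ⟨1, 1, fun i => i.elim0, fun i => i.elim0, fun i => i.elim0,
      Matrix.ext (fun i => i.elim0)⟩
  | succ n ih =>
    intro A hA
    obtain ⟨L', U', hL1, hL0, hU0, hLU⟩ := ih (A.submatrix Fin.castSucc Fin.castSucc)
      (fun k hk => hA k (hk.trans (Nat.le_succ n)))
    have hdet : L'.det * U'.det ≠ 0 := by
      rw [← Matrix.det_mul, ← hLU]
      exact hA n (Nat.le_succ n)
    have hLu : IsUnit L'.det := (left_ne_zero_of_mul hdet).isUnit
    have hUu : IsUnit U'.det := (right_ne_zero_of_mul hdet).isUnit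
    let ℓ : Fin n → K := Matrix.vecMul (fun j => A (Fin.last n) j.castSucc) U'⁻¹
    let u : Fin n → K := Matrix.mulVec L'⁻¹ (fun i => A i.castSucc (Fin.last n))
    have hℓ : Matrix.vecMul ℓ U' = fun j => A (Fin.last n) j.castSucc := by
      rw [Matrix.vecMul_vecMul, Matrix.nonsing_inv_mul _ hUu, Matrix.vecMul_one]
    have hu : Matrix.mulVec L' u = fun i => A i.castSucc (Fin.last n) := by
      rw [Matrix.mulVec_mulVec, Matrix.mul_nonsing_inv _ hLu, Matrix.one_mulVec]
    let L : Matrix (Fin (n + 1)) (Fin (n + 1)) K := fun i j =>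
      Fin.lastCases (Fin.lastCases 1 (fun j' => ℓ j') j)
        (fun i' => Fin.lastCases 0 (fun j' => L' i' j') j) i
    let U : Matrix (Fin (n + 1)) (Fin (n + 1)) K := fun i j =>
      Fin.lastCases (Fin.lastCases (A (Fin.last n) (Fin.last n) - dotProduct ℓ u)
        (fun _ => 0) j) (fun i' => Fin.lastCases (u i') (fun j' => U' i' j') j) i
    refine ⟨L, U, ?_, ?_, ?_, ?_⟩
    · intro i
      refine Fin.lastCases ?_ (fun i => ?_) i
      · simp [L]
      · simp [L, hL1]
    · intro i j
      refine Fin.lastCases ?_ (fun i => ?_) i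
      · intro h
        exact absurd h (not_lt.2 (Fin.le_last j))
      · refine Fin.lastCases ?_ (fun j => ?_) j
        · intro _
          simp [L]
        · intro h
          simp only [L, Fin.lastCases_castSucc]
          exact hL0 i j (by simpa using h)
    · intro i j
      refine Fin.lastCases ?_ (fun j => ?_) j
      · intro h
        exact absurd h (not_lt.2 (Fin.le_last i))
      · refine Fin.lastCases ?_ (fun i => ?_) i
        · intro _
          simp [U]
        · intro h
          simp only [U, Fin.lastCases_castSucc]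
          exact hU0 i j (by simpa using h)
    · ext i j
      rw [Matrix.mul_apply, Fin.sum_univ_castSucc]
      refine Fin.lastCases ?_ (fun i => ?_) i
      · refine Fin.lastCases ?_ (fun j => ?_) j
        · simp only [L, U, Fin.lastCases_castSucc, Fin.lastCases_last]
          rw [one_mul, dotProduct]
          ring
        · simp only [L, U, Fin.lastCases_castSucc, Fin.lastCases_last]
          rw [mul_zero, add_zero]
          exact (congrFun hℓ j).symm
      · refine Fin.lastCases ?_ (fun j => ?_) j
        · simp only [L, U, Fin.lastCases_castSucc, Fin.lastCases_last]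
          rw [zero_mul, add_zero]
          exact (congrFun hu i).symm
        · simp only [L, U, Fin.lastCases_castSucc, Fin.lastCases_last]
          rw [zero_mul, add_zero]
          have := congrFun (congrFun hLU i) j
          rw [Matrix.mul_apply] at this
          exact this

end Pool.Agent.Hhelper18.MultSch
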