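import Mathlib
import Pool.Agent.Hhelper18.MS.Defs
import Pool.Agent.Hhelper18.MS.LU

/-! The Schubert variety given by `F₁ ⊂ E_a`, `F₃ ⊂ E_{n-1}`, `E₁ ⊂ F_{n-1}`. -/

namespace Pool.Agent.Hhelper18.MultSch

open MvPolynomial Matrix

variable {n a : ℕ}

/-- the hypotheses on the permutation -/
structure Hyp (n a : ℕ) (w : Equiv.Perm (Fin n)) : Prop where
  hn : 6 ≤ n
  ha : 3 ≤ a
  h0 : ∀ c, c.val = 0 → (w c).val < a
  h2 : ∀ c, c.val ≤ 2 → (w c).val + 1 ≠ n
  hp : ∀ c, c.val + 2 = n → (w c).val = 0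
  ninv : ∀ p q, p < q → w p < w q → (p.val = 0 ∧ a ≤ (w q).val) ∨
    (p.val ≤ 2 ∧ (w q).val + 1 = n) ∨ (p.val + 2 = n ∧ q.val + 1 = n)

/-- the first basis vector -/
def e0 (n : ℕ) : Fin n → ℂ := fun r => if r.val = 0 then 1 else 0

/-- the closed conditions; `y` are the coordinates of `e₀` in the basis of columns of `g` -/
structure InZ (a : ℕ) (g : Matrix (Fin n) (Fin n) ℂ) (y : Fin n → ℂ) : Prop where
  z1 : ∀ r c, c.val = 0 → a ≤ r.val → g r c = 0
  z2 : ∀ r c, r.val + 1 = n → c.val ≤ 2 → g r c = 0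
  z3 : g *ᵥ y = e0 n
  z4 : ∀ r, r.val + 1 = n → y r = 0

/-! ### Borel -/

theorem det_upper {b : Matrix (Fin n) (Fin n) ℂ} (hb : ∀ i j, j < i → b i j = 0) :
    b.det = ∏ i, b i i := Matrix.det_of_upperTriangular (fun i j h => hb i j h)

theorem IsBorel.diag {b : Matrix (Fin n) (Fin n) ℂ} (hb : IsBorel b) (i : Fin n) : b i i ≠ 0 := by
  have h1 := hb.1.ne_zero
  rw [det_upper hb.2] at h1
  exact Finset.prod_ne_zero_iff.1 h1 i (Finset.mem_univ i)

theorem isBorel_of {b : Matrix (Fin n) (Fin n) ℂ} (h0 : ∀ i j, j < i → b i j = 0)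
    (h1 : ∀ i, b i i ≠ 0) : IsBorel b := by
  refine ⟨?_, h0⟩
  rw [det_upper h0]
  exact (Finset.prod_ne_zero_iff.2 (fun i _ => h1 i)).isUnit

theorem IsBorel.inv {b : Matrix (Fin n) (Fin n) ℂ} (hb : IsBorel b) : IsBorel b⁻¹ := by
  refine ⟨?_, ?_⟩
  · rw [Matrix.det_nonsing_inv]
    exact hb.1.ringInverse
  · haveI : Invertible b := Matrix.invertibleOfIsUnitDet b hb.1
    have h1 : Matrix.BlockTriangular b id := fun i j h => hb.2 i j h
    have h2 := Matrix.blockTriangular_inv_of_blockTriangular h1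
    exact fun i j h => h2 h

theorem permMat_mul (w : Equiv.Perm (Fin n)) (A : Matrix (Fin n) (Fin n) ℂ) (i j : Fin n) :
    (permMat w * A) i j = A (w.symm i) j := by
  rw [Matrix.mul_apply, Finset.sum_eq_single (w.symm i)]
  · simp [permMat]
  · intro k _ hk
    have : i ≠ w k := fun h => hk (by rw [h, Equiv.symm_apply_apply])
    simp [permMat, this]
  · intro h
    exact absurd (Finset.mem_univ _) h

theorem mul_permMat (w : Equiv.Perm (Fin n)) (A : Matrix (Fin n) (Fin n) ℂ) (i j : Fin n) :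
    (A * permMat w) i j = A i (w j) := by
  rw [Matrix.mul_apply, Finset.sum_eq_single (w j)]
  · simp [permMat]
  · intro k _ hk
    simp [permMat, hk]
  · intro h
    exact absurd (Finset.mem_univ _) h

theorem permMat_mulVec (w : Equiv.Perm (Fin n)) (v : Fin n → ℂ) (i : Fin n) :
    (permMat w *ᵥ v) i = v (w.symm i) := by
  rw [Matrix.mulVec, dotProduct, Finset.sum_eq_single (w.symm i)]
  · simp [permMat]
  · intro k _ hk
    have : i ≠ w k := fun h => hk (by rw [h, Equiv.symm_apply_apply])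
    simp [permMat, this]
  · intro h
    exact absurd (Finset.mem_univ _) h

theorem det_permMat (w : Equiv.Perm (Fin n)) : (permMat w).det ≠ 0 := by
  have h : permMat w * permMat w.symm = 1 := by
    ext i j
    rw [permMat_mul]
    simp [permMat, Matrix.one_apply]
  have h2 := congrArg Matrix.det h
  rw [Matrix.det_mul, Matrix.det_one] at h2
  exact left_ne_zero_of_mul (by rw [h2]; exact one_ne_zero)

theorem mulVec_injective {g : Matrix (Fin n) (Fin n) ℂ} (hg : g.det ≠ 0) {x y : Fin n → ℂ}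
    (h : g *ᵥ x = g *ᵥ y) : x = y := by
  have h1 := congrArg (fun v => g⁻¹ *ᵥ v) h
  simpa [Matrix.mulVec_mulVec, Matrix.nonsing_inv_mul g hg.isUnit] using h1

/-! ### The double coset is contained in the closed set -/

theorem InZ.mul_borel {g : Matrix (Fin n) (Fin n) ℂ} {y : Fin n → ℂ} (h : InZ a g y)
    {c : Matrix (Fin n) (Fin n) ℂ} (hc : IsBorel c) : InZ a (g * c) (c⁻¹ *ᵥ y) := by
  refine ⟨?_, ?_, ?_, ?_⟩
  · intro r k hk hr
    rw [Matrix.mul_apply]
    refine Finset.sum_eq_zero (fun l _ => ?_)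
    by_cases hl : l.val = 0
    · rw [h.z1 r l hl hr, zero_mul]
    · rw [hc.2 l k (by rw [Fin.lt_def]; omega), mul_zero]
  · intro r k hr hk
    rw [Matrix.mul_apply]
    refine Finset.sum_eq_zero (fun l _ => ?_)
    by_cases hl : l.val ≤ 2
    · rw [h.z2 r l hr hl, zero_mul]
    · rw [hc.2 l k (by rw [Fin.lt_def]; omega), mul_zero]
  · rw [Matrix.mulVec_mulVec, Matrix.mul_assoc, Matrix.mul_nonsing_inv c hc.1, Matrix.mul_one]
    exact h.z3
  · intro r hr
    rw [Matrix.mulVec, dotProduct]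
    refine Finset.sum_eq_zero (fun l _ => ?_)
    by_cases hl : l.val + 1 = n
    · rw [h.z4 l hl, mul_zero]
    · rw [hc.inv.2 r l (by rw [Fin.lt_def]; have := l.2; omega), zero_mul]

theorem inZ_mul_perm {w : Equiv.Perm (Fin n)} (H : Hyp n a w) {b : Matrix (Fin n) (Fin n) ℂ}
    (hb : IsBorel b) : ∃ y, InZ a (b * permMat w) y := by
  have hn := H.hn
  let p0 : Fin n := ⟨0, by omega⟩
  let y : Fin n → ℂ := fun i => if w i = p0 then (b p0 p0)⁻¹ else 0
  refine ⟨y, ?_, ?_, ?_, ?_⟩
  · intro r c hc hr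
    rw [mul_permMat]
    exact hb.2 _ _ (by rw [Fin.lt_def]; have := H.h0 c hc; omega)
  · intro r c hr hc
    rw [mul_permMat]
    exact hb.2 _ _ (by rw [Fin.lt_def]; have := H.h2 c hc; have := (w c).2; omega)
  · funext r
    rw [← Matrix.mulVec_mulVec, Matrix.mulVec, dotProduct, Finset.sum_eq_single p0]
    · rw [permMat_mulVec]
      simp only [y, Equiv.apply_symm_apply, if_true]
      rw [e0]
      by_cases hr : r.val = 0
      · have : r = p0 := Fin.ext hr
        rw [this, if_pos rfl, mul_inv_cancel₀ (hb.diag p0)]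
      · rw [if_neg hr, hb.2 r p0 (by rw [Fin.lt_def]; change 0 < r.val; omega), zero_mul]
    · intro k _ hk
      rw [permMat_mulVec]
      simp only [y, Equiv.apply_symm_apply]
      rw [if_neg hk, mul_zero]
    · intro h
      exact absurd (Finset.mem_univ _) h
  · intro r hr
    simp only [y]
    rw [if_neg]
    intro h
    have h1 : (w r).val = 0 := by rw [h]
    let pn : Fin n := ⟨n - 2, by omega⟩
    have h2 : (w pn).val = 0 := H.hp pn (by change n - 2 + 2 = n; omega)
    have h3 : r = pn := w.injective (Fin.ext (h1.trans h2.symm))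
    rw [h3] at hr
    change n - 2 + 1 = n at hr
    omega

theorem inZ_cell {w : Equiv.Perm (Fin n)} (H : Hyp n a w) {g : Matrix (Fin n) (Fin n) ℂ}
    (hg : g ∈ cell w) : ∃ y, InZ a g y := by
  obtain ⟨b, c, hb, hc, rfl⟩ := hg
  obtain ⟨y, hy⟩ := inZ_mul_perm H hb
  exact ⟨_, hy.mul_borel hc⟩

/-! ### The closed conditions hold on the closure -/

theorem entry_zero {w : Equiv.Perm (Fin n)} {r c : Fin n} (h : ∀ g ∈ cell w, g r c = 0)
    {g : Matrix (Fin n) (Fin n) ℂ} (hg : g ∈ schubert w) : g r c = 0 := by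
  have := hg (X (r, c)) (fun g hg => by rw [eval_X]; exact h g hg)
  rwa [eval_X] at this

theorem eval_adj (g : Matrix (Fin n) (Fin n) ℂ) (r c : Fin n) :
    eval (fun q : Fin n × Fin n => g q.1 q.2) ((Matrix.mvPolynomialX (Fin n) (Fin n) ℂ).adjugate r c)
      = g.adjugate r c := by
  have h1 : (eval (fun q : Fin n × Fin n => g q.1 q.2)).mapMatrix
      (Matrix.mvPolynomialX (Fin n) (Fin n) ℂ) = g := by
    ext i j
    simp [Matrix.mvPolynomialX]
  have h2 := RingHom.map_adjugate (eval (fun q : Fin n × Fin n => g q.1 q.2))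
    (Matrix.mvPolynomialX (Fin n) (Fin n) ℂ)
  rw [h1] at h2
  exact congrFun (congrFun h2 r) c

theorem InZ.adj {g : Matrix (Fin n) (Fin n) ℂ} {y : Fin n → ℂ} (h : InZ a g y) {r c : Fin n}
    (hr : r.val + 1 = n) (hc : c.val = 0) : g.adjugate r c = 0 := by
  have h1 : g.adjugate *ᵥ (g *ᵥ y) = g.det • y := by
    rw [Matrix.mulVec_mulVec, Matrix.adjugate_mul, Matrix.smul_mulVec, Matrix.one_mulVec]
  rw [h.z3] at h1
  have h2 := congrFun h1 r
  rw [Pi.smul_apply, h.z4 r hr, smul_zero, Matrix.mulVec, dotProduct,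
    Finset.sum_eq_single c] at h2
  · rw [e0, if_pos hc, mul_one] at h2
    exact h2
  · intro k _ hk
    rw [e0, if_neg (fun h => hk (Fin.ext (h.trans hc.symm))), mul_zero]
  · intro h
    exact absurd (Finset.mem_univ _) h

theorem inZ_schubert {w : Equiv.Perm (Fin n)} (H : Hyp n a w) {g : Matrix (Fin n) (Fin n) ℂ}
    (hdet : g.det ≠ 0) (hg : g ∈ schubert w) : InZ a g (g⁻¹ *ᵥ e0 n) := by
  have hn := H.hn
  refine ⟨?_, ?_, ?_, ?_⟩
  · intro r c hc hr
    refine entry_zero (fun g hg => ?_) hg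
    obtain ⟨y, hy⟩ := inZ_cell H hg
    exact hy.z1 r c hc hr
  · intro r c hr hc
    refine entry_zero (fun g hg => ?_) hg
    obtain ⟨y, hy⟩ := inZ_cell H hg
    exact hy.z2 r c hr hc
  · rw [Matrix.mulVec_mulVec, Matrix.mul_nonsing_inv g hdet.isUnit, Matrix.one_mulVec]
  · intro r hr
    let p0 : Fin n := ⟨0, by omega⟩
    have h1 : g.adjugate r p0 = 0 := by
      rw [← eval_adj]
      refine hg _ (fun g hg => ?_)
      rw [eval_adj]
      obtain ⟨y, hy⟩ := inZ_cell H hg
      exact hy.adj hr rfl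
    rw [Matrix.mulVec, dotProduct]
    refine Finset.sum_eq_zero (fun l _ => ?_)
    by_cases hl : l.val = 0
    · have : l = p0 := Fin.ext hl
      rw [this, Matrix.inv_def, Matrix.smul_apply, h1, smul_zero, zero_mul]
    · rw [e0, if_neg hl, mul_zero]

/-! ### The generic point -/

theorem mem_cell_of_LU {w : Equiv.Perm (Fin n)} (H : Hyp n a w) {g : Matrix (Fin n) (Fin n) ℂ}
    {y : Fin n → ℂ} (hg : InZ a g y) {L U : Matrix (Fin n) (Fin n) ℂ} (hL1 : ∀ i, L i i = 1)
    (hL0 : ∀ i j, i < j → L i j = 0) (hU : IsBorel U) (h : permMat w.symm * g = L * U) :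
    g ∈ cell w := by
  have hn := H.hn
  have hgLU : g = permMat w * L * U := by
    rw [Matrix.mul_assoc, ← h]
    ext i j
    rw [permMat_mul, permMat_mul]
    simp
  have hZ : InZ a (permMat w * L) ((U⁻¹)⁻¹ *ᵥ y) := by
    have := hg.mul_borel hU.inv
    rwa [hgLU, Matrix.mul_assoc, Matrix.mul_nonsing_inv U hU.1, Matrix.mul_one] at this
  set z := (U⁻¹)⁻¹ *ᵥ y with hz
  -- the last coordinate
  have hlast : ∀ p q : Fin n, p.val + 2 = n → q.val + 1 = n → L q p = 0 := by
    intro p q hp hq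
    have hwp : (w p).val = 0 := H.hp p hp
    have h1 : ∀ i, (L *ᵥ z) i = if i = p then 1 else 0 := by
      intro i
      have h2 := congrFun hZ.z3 (w i)
      rw [← Matrix.mulVec_mulVec, permMat_mulVec, Equiv.symm_apply_apply, e0] at h2
      rw [h2]
      by_cases hi : i = p
      · rw [if_pos hi, hi, if_pos hwp]
      · rw [if_neg hi, if_neg]
        intro h3
        exact hi (w.injective (Fin.ext (h3.trans hwp.symm)))
    have hrow : ∀ i, (∀ k, k < i → z k = 0) → (L *ᵥ z) i = z i := by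
      intro i hi
      rw [Matrix.mulVec, dotProduct, Finset.sum_eq_single i]
      · rw [hL1, one_mul]
      · intro k _ hk
        rcases lt_or_gt_of_ne hk with h5 | h5
        · rw [hi k h5, mul_zero]
        · rw [hL0 i k h5, zero_mul]
      · intro h
        exact absurd (Finset.mem_univ _) h
    have h4 : ∀ i, i < p → z i = 0 := by
      intro i
      induction i using WellFoundedLT.induction with
      | _ i ih =>
        intro hip
        have h5 := hrow i (fun k hk => ih k hk (hk.trans hip))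
        rw [h1, if_neg hip.ne] at h5
        exact h5.symm
    have h5 : z p = 1 := by
      have := hrow p h4
      rw [h1, if_pos rfl] at this
      exact this.symm
    have h6 : (L *ᵥ z) q = L q p := by
      rw [Matrix.mulVec, dotProduct, Finset.sum_eq_single p]
      · rw [h5, mul_one]
      · intro k _ hk
        rcases lt_or_gt_of_ne hk with h7 | h7
        · rw [h4 k h7, mul_zero]
        · rw [hZ.z4 k (by rw [Fin.lt_def] at h7; have := k.2; omega), mul_zero]
      · intro h
        exact absurd (Finset.mem_univ _) h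
    have hqp : q ≠ p := by
      intro h7
      rw [h7] at hq
      omega
    rw [h1, if_neg hqp] at h6
    exact h6.symm
  refine ⟨permMat w * L * permMat w.symm, U, ?_, hU, ?_⟩
  · refine isBorel_of (fun i j hij => ?_) (fun i => ?_)
    · rw [mul_permMat, permMat_mul]
      rcases lt_trichotomy (w.symm i) (w.symm j) with h1 | h1 | h1
      · exact hL0 _ _ h1
      · exact absurd (w.symm.injective h1) hij.ne'
      · rcases H.ninv (w.symm j) (w.symm i) h1 (by simpa using hij) with h2 | h2 | h2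
        · have := hZ.z1 i (w.symm j) h2.1 (by simpa using h2.2)
          rwa [permMat_mul] at this
        · have := hZ.z2 i (w.symm j) (by simpa using h2.2) h2.1
          rwa [permMat_mul] at this
        · exact hlast _ _ h2.1 h2.2
    · rw [mul_permMat, permMat_mul, hL1]
      exact one_ne_zero
  · rw [hgLU]
    congr 1
    ext i j
    rw [mul_permMat, mul_permMat]
    simp

end Pool.Agent.Hhelper18.MultSch
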