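import Mathlib
import Pool.Agent.Hhelper18.MS.Closure

/-! Points of the closed set are limits of points of the double coset. -/

namespace Pool.Agent.Hhelper18.MultSch

open MvPolynomial Matrix

variable {n a : ℕ} {w : Equiv.Perm (Fin n)}

theorem path (G : Matrix (Fin n) (Fin n) (Polynomial ℂ)) (D : Polynomial ℂ) (hD : D ≠ 0)
    (h : ∀ t, D.eval t ≠ 0 → G.map (Polynomial.eval t) ∈ schubert w) (s : ℂ) :
    G.map (Polynomial.eval s) ∈ schubert w := by
  intro F hF
  let P : Polynomial ℂ := MvPolynomial.aeval (fun q : Fin n × Fin n => G q.1 q.2) F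
  have hP : ∀ t, P.eval t = eval (fun q : Fin n × Fin n => (G q.1 q.2).eval t) F := by
    intro t
    have h1 : ((Polynomial.aeval t : Polynomial ℂ →ₐ[ℂ] ℂ).comp
        (MvPolynomial.aeval (fun q : Fin n × Fin n => G q.1 q.2))) =
        MvPolynomial.aeval (fun q : Fin n × Fin n => (G q.1 q.2).eval t) := by
      apply MvPolynomial.algHom_ext
      intro q
      simp [Polynomial.aeval_def]
    have h2 := congrArg (fun f => f F) h1
    simp only [AlgHom.comp_apply] at h2
    rw [Polynomial.coe_aeval_eq_eval, aeval_eq_eval] at h2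
    exact h2
  have h1 : D * P = 0 := by
    apply Polynomial.funext
    intro t
    rw [Polynomial.eval_mul, Polynomial.eval_zero]
    by_cases ht : D.eval t = 0
    · rw [ht, zero_mul]
    · have := h t ht F hF
      rw [hP]
      change _ * eval (fun q : Fin n × Fin n => (G.map (Polynomial.eval t)) q.1 q.2) F = 0
      rw [this, mul_zero]
  have h2 : P = 0 := (mul_eq_zero.1 h1).resolve_left hD
  change eval (fun q : Fin n × Fin n => (G q.1 q.2).eval s) F = 0
  rw [← hP, h2, Polynomial.eval_zero]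

theorem cell_subset {g : Matrix (Fin n) (Fin n) ℂ} (hg : g ∈ cell w) : g ∈ schubert w :=
  fun _ hF => hF g hg

/-! ### Step C -/

section StepC

variable (g : Matrix (Fin n) (Fin n) ℂ) (y : Fin n → ℂ) (j : Fin n) (w)

/-- target matrix -/
def tgt (r c : Fin n) : ℂ :=
  if c.val + 2 = n then e0 n r + (if r = w j then 1 else 0) else if r = w c then 1 else 0

/-- target coordinates -/
def ytgt (c : Fin n) : ℂ := if c.val + 2 = n then 1 else 0

/-- path of columns different from `j` -/
def colt (t : ℂ) (r c : Fin n) : ℂ := g r c * (1 - t) + tgt w j r c * t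

/-- path of coordinates -/
def yt (t : ℂ) (c : Fin n) : ℂ := y c * (1 - t) + ytgt c * t

/-- the path -/
noncomputable def pt (t : ℂ) : Matrix (Fin n) (Fin n) ℂ := fun r c =>
  if c = j then (y j)⁻¹ * (e0 n r - ∑ k ∈ Finset.univ.erase j, colt w g j t r k * yt y t k)
  else colt w g j t r c

/-- the path, as a matrix of polynomials -/
noncomputable def ptP : Matrix (Fin n) (Fin n) (Polynomial ℂ) := fun r c =>
  if c = j then Polynomial.C (y j)⁻¹ * (Polynomial.C (e0 n r) - ∑ k ∈ Finset.univ.erase j,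
    (Polynomial.C (g r k) * (1 - Polynomial.X) + Polynomial.C (tgt w j r k) * Polynomial.X) *
      (Polynomial.C (y k) * (1 - Polynomial.X) + Polynomial.C (ytgt k) * Polynomial.X))
  else Polynomial.C (g r c) * (1 - Polynomial.X) + Polynomial.C (tgt w j r c) * Polynomial.X

theorem ptP_eval (t : ℂ) : (ptP w g y j).map (Polynomial.eval t) = pt w g y j t := by
  ext r c
  rw [Matrix.map_apply, ptP, pt]
  by_cases hc : c = j
  · rw [if_pos hc, if_pos hc]
    simp [Polynomial.eval_finset_sum, colt, yt]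
  · rw [if_neg hc, if_neg hc]
    simp [colt]

variable {g y j w} (H : Hyp n a w) (hg : InZ a g y) (hj : 3 ≤ j.val) (hj2 : j.val + 2 ≤ n)
  (hy : y j ≠ 0)

include hg hy in
theorem pt_zero : pt w g y j 0 = g := by
  ext r c
  rw [pt]
  by_cases hc : c = j
  · rw [if_pos hc, hc]
    have h1 := congrFun hg.z3 r
    rw [Matrix.mulVec, dotProduct, ← Finset.add_sum_erase _ _ (Finset.mem_univ j)] at h1
    have h2 : ∑ k ∈ Finset.univ.erase j, colt w g j 0 r k * yt y 0 k =
        ∑ k ∈ Finset.univ.erase j, g r k * y k := by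
      refine Finset.sum_congr rfl (fun k _ => ?_)
      simp [colt, yt]
    rw [h2, ← h1, add_sub_cancel_right]
    field_simp
  · rw [if_neg hc]
    simp [colt]

include H hg hj hj2 hy in
theorem pt_inZ (t : ℂ) : InZ a (pt w g y j t) (fun c => if c = j then y j else yt y t c) := by
  have hn := H.hn
  refine ⟨?_, ?_, ?_, ?_⟩
  · intro r c hc hr
    have hcj : c ≠ j := by rintro rfl; omega
    rw [pt, if_neg hcj, colt, hg.z1 r c hc hr, tgt, if_neg (by omega), if_neg, zero_mul, zero_mul,
      add_zero]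
    intro h
    have := H.h0 c hc
    rw [← h] at this
    omega
  · intro r c hr hc
    have hcj : c ≠ j := by rintro rfl; omega
    rw [pt, if_neg hcj, colt, hg.z2 r c hr hc, tgt, if_neg (by omega), if_neg, zero_mul, zero_mul,
      add_zero]
    intro h
    have := H.h2 c hc
    rw [← h] at this
    omega
  · funext r
    rw [Matrix.mulVec, dotProduct, ← Finset.add_sum_erase _ _ (Finset.mem_univ j)]
    have h2 : ∑ k ∈ Finset.univ.erase j, pt w g y j t r k * (if k = j then y j else yt y t k) =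
        ∑ k ∈ Finset.univ.erase j, colt w g j t r k * yt y t k := by
      refine Finset.sum_congr rfl (fun k hk => ?_)
      rw [pt, if_neg (Finset.ne_of_mem_erase hk), if_neg (Finset.ne_of_mem_erase hk)]
    rw [h2, pt, if_pos rfl, if_pos rfl]
    field_simp
    ring
  · intro r hr
    have hrj : r ≠ j := by rintro rfl; omega
    rw [if_neg hrj, yt, hg.z4 r hr, ytgt, if_neg (by omega), zero_mul, zero_mul, add_zero]

include H in
theorem tgt_apply (hj2 : j.val + 2 ≤ n) (i c : Fin n) : tgt w j (w i) c =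
    if c.val + 2 = n then (if i = c then 1 else 0) + (if i = j then 1 else 0)
      else if i = c then 1 else 0 := by
  rw [tgt]
  by_cases hc : c.val + 2 = n
  · rw [if_pos hc, if_pos hc, e0]
    have h1 : (w i).val = 0 ↔ i = c := by
      have h2 := H.hp c hc
      constructor
      · intro h3
        exact w.injective (Fin.ext (h3.trans h2.symm))
      · rintro rfl
        exact h2
    simp only [h1, w.injective.eq_iff]
  · rw [if_neg hc, if_neg hc]
    simp only [w.injective.eq_iff]

include H hj2 in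
theorem pt_one_j (i : Fin n) : pt w g y j 1 (w i) j =
    (y j)⁻¹ * (if i = j then (if j.val + 2 = n then 1 else -1) else 0) := by
  have hn := H.hn
  have hc1 : ∀ r k, colt w g j 1 r k = tgt w j r k := fun r k => by simp [colt]
  have hy1 : ∀ k, yt y 1 k = ytgt k := fun k => by simp [yt]
  rw [pt, if_pos rfl]
  congr 1
  by_cases h : j.val + 2 = n
  · have h1 : ∑ k ∈ Finset.univ.erase j, colt w g j 1 (w i) k * yt y 1 k = 0 := by
      refine Finset.sum_eq_zero (fun k hk => ?_)
      have hkj := Finset.ne_of_mem_erase hk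
      rw [hy1, ytgt, if_neg, mul_zero]
      intro h2
      exact hkj (Fin.ext (by omega))
    rw [h1, sub_zero, if_pos h, e0]
    have h2 : (w i).val = 0 ↔ i = j := by
      have h3 := H.hp j h
      constructor
      · intro h4
        exact w.injective (Fin.ext (h4.trans h3.symm))
      · rintro rfl
        exact h3
    simp only [h2]
  · let c2 : Fin n := ⟨n - 2, by omega⟩
    have hc2 : c2.val + 2 = n := by change n - 2 + 2 = n; omega
    have hc2j : c2 ≠ j := by
      intro h3
      rw [h3] at hc2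
      exact h hc2
    have h1 : ∑ k ∈ Finset.univ.erase j, colt w g j 1 (w i) k * yt y 1 k =
        (if i = c2 then 1 else 0) + (if i = j then 1 else 0) := by
      rw [Finset.sum_eq_single c2]
      · rw [hy1, ytgt, if_pos hc2, mul_one, hc1, tgt_apply H hj2, if_pos hc2]
      · intro k _ hk
        rw [hy1, ytgt, if_neg, mul_zero]
        intro h2
        exact hk (Fin.ext (by omega))
      · intro h2
        exact absurd (Finset.mem_erase.2 ⟨hc2j, Finset.mem_univ _⟩) h2
    rw [h1, if_neg h, e0]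
    have h2 : (w i).val = 0 ↔ i = c2 := by
      have h3 := H.hp c2 hc2
      constructor
      · intro h4
        exact w.injective (Fin.ext (h4.trans h3.symm))
      · rintro rfl
        exact h3
    simp only [h2]
    split_ifs <;> ring

include H hj2 in
theorem pt_one (i c : Fin n) (hic : c < i) : pt w g y j 1 (w i) c = 0 := by
  by_cases hc : c = j
  · rw [hc] at hic ⊢
    rw [pt_one_j H hj2, if_neg hic.ne', mul_zero]
  · have hc1 : ∀ r k, colt w g j 1 r k = tgt w j r k := fun r k => by simp [colt]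
    rw [pt, if_neg hc, hc1, tgt_apply H hj2]
    have h1 : i ≠ c := hic.ne'
    by_cases h2 : c.val + 2 = n
    · have h3 : i ≠ j := by
        rintro rfl
        rw [Fin.lt_def] at hic
        omega
      rw [if_pos h2, if_neg h1, if_neg h3, add_zero]
    · rw [if_neg h2, if_neg h1]

include H hj2 hy in
theorem pt_one_diag (i : Fin n) : pt w g y j 1 (w i) i ≠ 0 := by
  by_cases hc : i = j
  · rw [hc, pt_one_j H hj2, if_pos rfl]
    refine mul_ne_zero (inv_ne_zero hy) ?_
    split_ifs <;> norm_num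
  · have hc1 : ∀ r k, colt w g j 1 r k = tgt w j r k := fun r k => by simp [colt]
    rw [pt, if_neg hc, hc1, tgt_apply H hj2]
    by_cases h1 : i.val + 2 = n
    · rw [if_pos h1, if_pos rfl, if_neg hc, add_zero]
      exact one_ne_zero
    · rw [if_neg h1, if_pos rfl]
      exact one_ne_zero

include H hg hj hj2 hy in
theorem stepC : g ∈ schubert w := by
  let A : Matrix (Fin n) (Fin n) (Polynomial ℂ) := fun i c => ptP w g y j (w i) c
  let D : Polynomial ℂ := ∏ k : Fin (n + 1), (lead A k.1 (Nat.lt_succ_iff.1 k.2)).det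
  have hA : ∀ t, A.map (Polynomial.eval t) = permMat w.symm * pt w g y j t := by
    intro t
    ext i c
    rw [permMat_mul, ← ptP_eval]
    rfl
  have hD : ∀ t, D.eval t =
      ∏ k : Fin (n + 1), (lead (permMat w.symm * pt w g y j t) k.1 (Nat.lt_succ_iff.1 k.2)).det := by
    intro t
    rw [Polynomial.eval_prod]
    refine Finset.prod_congr rfl (fun k _ => ?_)
    rw [← hA]
    exact (RingHom.map_det (Polynomial.evalRingHom t) _)
  have hD1 : D.eval 1 ≠ 0 := by
    rw [hD]
    refine Finset.prod_ne_zero_iff.2 (fun k _ => ?_)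
    have h1 : ∀ i c : Fin k.1, c < i → lead (permMat w.symm * pt w g y j 1) k.1
        (Nat.lt_succ_iff.1 k.2) i c = 0 := by
      intro i c hic
      rw [lead, Matrix.submatrix_apply, permMat_mul]
      exact pt_one H hj2 _ _ (by simpa using hic)
    rw [det_upper h1]
    refine Finset.prod_ne_zero_iff.2 (fun i _ => ?_)
    rw [lead, Matrix.submatrix_apply, permMat_mul]
    exact pt_one_diag H hj2 hy _
  have h2 := path (w := w) (ptP w g y j) D (fun h => hD1 (by rw [h, Polynomial.eval_zero])) ?_ 0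
  · rwa [ptP_eval, pt_zero hg hy] at h2
  · intro t ht
    rw [ptP_eval]
    rw [hD] at ht
    have h3 := Finset.prod_ne_zero_iff.1 ht
    obtain ⟨L, U, hL1, hL0, hU0, hLU⟩ := exists_LU (permMat w.symm * pt w g y j t)
      (fun k hk => h3 ⟨k, Nat.lt_succ_iff.2 hk⟩ (Finset.mem_univ _))
    have h4 : (permMat w.symm * pt w g y j t).det ≠ 0 := h3 ⟨n, Nat.lt_succ_self n⟩ (Finset.mem_univ _)
    rw [hLU, Matrix.det_mul] at h4
    exact cell_subset (mem_cell_of_LU H (pt_inZ H hg hj hj2 hy t) hL1 hL0
      ⟨(right_ne_zero_of_mul h4).isUnit, hU0⟩ hLU)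

end StepC

/-! ### Step B -/

/-- move column `i` in direction `v` -/
def mv (g : Matrix (Fin n) (Fin n) ℂ) (i : Fin n) (v : Fin n → ℂ) (s : ℂ) :
    Matrix (Fin n) (Fin n) ℂ := fun r c => if c = i then g r c + s * v r else g r c

theorem mv_mulVec (g : Matrix (Fin n) (Fin n) ℂ) (i : Fin n) (v : Fin n → ℂ) (s : ℂ)
    (x : Fin n → ℂ) : mv g i v s *ᵥ x = g *ᵥ x + (s * x i) • v := by
  funext r
  rw [Pi.add_apply, Pi.smul_apply, Matrix.mulVec, Matrix.mulVec, dotProduct, dotProduct,
    ← Finset.add_sum_erase _ _ (Finset.mem_univ i),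
    ← Finset.add_sum_erase (f := fun c => g r c * x c) _ (Finset.mem_univ i)]
  have h1 : ∑ c ∈ Finset.univ.erase i, mv g i v s r c * x c =
      ∑ c ∈ Finset.univ.erase i, g r c * x c := by
    refine Finset.sum_congr rfl (fun c hc => ?_)
    rw [mv, if_neg (Finset.ne_of_mem_erase hc)]
  rw [h1, mv, if_pos rfl, smul_eq_mul]
  ring

/-- the path, with polynomial entries -/
noncomputable def mvP (g : Matrix (Fin n) (Fin n) ℂ) (i : Fin n) (v : Fin n → ℂ) :
    Matrix (Fin n) (Fin n) (Polynomial ℂ) := fun r c =>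
  if c = i then Polynomial.C (g r c) + Polynomial.X * Polynomial.C (v r) else Polynomial.C (g r c)

theorem mvP_eval (g : Matrix (Fin n) (Fin n) ℂ) (i : Fin n) (v : Fin n → ℂ) (t : ℂ) :
    (mvP g i v).map (Polynomial.eval t) = mv g i v t := by
  ext r c
  rw [Matrix.map_apply, mvP, mv]
  split_ifs
  · rw [Polynomial.eval_add, Polynomial.eval_C, Polynomial.eval_mul, Polynomial.eval_X,
      Polynomial.eval_C]
  · rw [Polynomial.eval_C]

theorem mv_zero (g : Matrix (Fin n) (Fin n) ℂ) (i : Fin n) (v : Fin n → ℂ) : mv g i v 0 = g := by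
  ext r c
  rw [mv]
  split_ifs <;> simp

/-- a line through `g` whose general point lies in the closure -/
theorem line (g : Matrix (Fin n) (Fin n) ℂ) (i : Fin n) (v : Fin n → ℂ) (hdet : g.det ≠ 0)
    (D : Polynomial ℂ) (hD : D ≠ 0)
    (h : ∀ t, t ≠ 0 → D.eval t ≠ 0 → (mv g i v t).det ≠ 0 → mv g i v t ∈ schubert w) :
    g ∈ schubert w := by
  have hd : ∀ t, (mvP g i v).det.eval t = (mv g i v t).det := by
    intro t
    rw [← mvP_eval]
    exact RingHom.map_det (Polynomial.evalRingHom t) _
  have h1 : (mvP g i v).det ≠ 0 := by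
    intro h2
    have := hd 0
    rw [h2, Polynomial.eval_zero, mv_zero] at this
    exact hdet this.symm
  have h2 := path (w := w) (mvP g i v) (Polynomial.X * D * (mvP g i v).det)
    (mul_ne_zero (mul_ne_zero Polynomial.X_ne_zero hD) h1) ?_ 0
  · rwa [mvP_eval, mv_zero] at h2
  · intro t ht
    rw [Polynomial.eval_mul, Polynomial.eval_mul, Polynomial.eval_X, hd] at ht
    rw [mvP_eval]
    exact h t (left_ne_zero_of_mul (left_ne_zero_of_mul ht))
      (right_ne_zero_of_mul (left_ne_zero_of_mul ht)) (right_ne_zero_of_mul ht)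

variable {g : Matrix (Fin n) (Fin n) ℂ} {y : Fin n → ℂ}

theorem stepB (H : Hyp n a w) (hg : InZ a g y) (hdet : g.det ≠ 0) {i l : Fin n} {x : Fin n → ℂ}
    (hi : i.val ≤ 2) (hyi : y i ≠ 0) (hl : 3 ≤ l.val) (hl2 : l.val + 2 ≤ n) (hxl : x l ≠ 0)
    (hx : ∀ r, r.val + 1 = n → x r = 0) (h1 : i.val = 0 → ∀ r, a ≤ r.val → (g *ᵥ x) r = 0)
    (h2 : ∀ r, r.val + 1 = n → (g *ᵥ x) r = 0) : g ∈ schubert w := by
  by_cases hyl : y l ≠ 0
  · exact stepC H hg hl hl2 hyl
  rw [not_not] at hyl
  -- the line
  refine line g i (g *ᵥ x) hdet (1 + Polynomial.X * Polynomial.C (x i)) ?_ ?_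
  · intro h
    have := congrArg (Polynomial.eval 0) h
    simp at this
  · intro t ht hD _
    simp only [Polynomial.eval_add, Polynomial.eval_one, Polynomial.eval_mul, Polynomial.eval_X,
      Polynomial.eval_C] at hD
    -- `s (1 + t x_i) = - t y_i`
    let s : ℂ := - (t * y i) / (1 + t * x i)
    have hs : s + t * (y i + s * x i) = 0 := by
      simp only [s]
      field_simp
      ring
    have hs0 : s ≠ 0 := div_ne_zero (neg_ne_zero.2 (mul_ne_zero ht hyi)) hD
    have hZ : InZ a (mv g i (g *ᵥ x) t) (y + s • x) := by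
      refine ⟨?_, ?_, ?_, ?_⟩
      · intro r c hc hr
        rw [mv]
        split_ifs with hci
        · rw [hg.z1 r c hc hr, h1 (by rw [← hci]; exact hc) r hr, mul_zero, add_zero]
        · exact hg.z1 r c hc hr
      · intro r c hr hc
        rw [mv]
        split_ifs with hci
        · rw [hg.z2 r c hr hc, h2 r hr, mul_zero, add_zero]
        · exact hg.z2 r c hr hc
      · rw [mv_mulVec, Matrix.mulVec_add, Matrix.mulVec_smul, hg.z3, add_assoc, ← add_smul,
          Pi.add_apply, Pi.smul_apply, smul_eq_mul, hs, zero_smul, add_zero]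
      · intro r hr
        rw [Pi.add_apply, Pi.smul_apply, hg.z4 r hr, hx r hr, smul_zero, add_zero]
    refine stepC H hZ hl hl2 ?_
    rw [Pi.add_apply, Pi.smul_apply, hyl, zero_add, smul_eq_mul]
    exact mul_ne_zero hs0 hxl

/-! ### Step A -/

theorem mem_schubert (H : Hyp n a w) (hg : InZ a g y) (hdet : g.det ≠ 0) : g ∈ schubert w := by
  have hn := H.hn
  have ha := H.ha
  let c0 : Fin n := ⟨0, by omega⟩
  let c1 : Fin n := ⟨1, by omega⟩
  let c2 : Fin n := ⟨2, by omega⟩
  let c3 : Fin n := ⟨3, by omega⟩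
  let c4 : Fin n := ⟨4, by omega⟩
  let cl : Fin n := ⟨n - 1, by omega⟩
  have hcl : ∀ r : Fin n, r.val + 1 = n → r = cl := fun r hr => Fin.ext (by
    change r.val = n - 1; omega)
  by_cases hA : ∃ j : Fin n, 3 ≤ j.val ∧ j.val + 2 ≤ n ∧ y j ≠ 0
  · obtain ⟨j, hj, hj2, hyj⟩ := hA
    exact stepC H hg hj hj2 hyj
  push Not at hA
  -- a vector in the span of the columns 3, 4 and in the hyperplane
  obtain ⟨x', hx1, hx2, l, hl, hl2, hxl⟩ : ∃ x' : Fin n → ℂ, (∀ r, r ≠ c3 → r ≠ c4 → x' r = 0) ∧
      (∀ r, r.val + 1 = n → (g *ᵥ x') r = 0) ∧ ∃ l : Fin n, 3 ≤ l.val ∧ l.val + 2 ≤ n ∧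
        x' l ≠ 0 := by
    have h34 : c3 ≠ c4 := by
      intro h
      have := congrArg Fin.val h
      change 3 = 4 at this
      omega
    by_cases h0 : g cl c3 = 0
    · refine ⟨Pi.single c3 1, fun r h1 _ => Pi.single_eq_of_ne h1 _, fun r hr => ?_, c3, le_rfl,
        by change 3 + 2 ≤ n; omega, by rw [Pi.single_eq_same]; exact one_ne_zero⟩
      rw [hcl r hr, Matrix.mulVec_single_one]
      exact h0
    · refine ⟨Pi.single c3 (g cl c4) - Pi.single c4 (g cl c3), fun r h1 h2 => ?_, fun r hr => ?_,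
        c4, by change 3 ≤ 4; omega, by change 4 + 2 ≤ n; omega, ?_⟩
      · rw [Pi.sub_apply, Pi.single_eq_of_ne h1, Pi.single_eq_of_ne h2, sub_zero]
      · rw [hcl r hr, Matrix.mulVec_sub, Pi.sub_apply, Matrix.mulVec_single, Matrix.mulVec_single]
        simp only [Pi.smul_apply, Matrix.col_apply, MulOpposite.smul_eq_mul_unop,
          MulOpposite.unop_op]
        ring
      · rw [Pi.sub_apply, Pi.single_eq_of_ne h34.symm, Pi.single_eq_same, zero_sub]
        exact neg_ne_zero.2 h0
  have hxl0 : ∀ r : Fin n, r.val + 1 = n → x' r = 0 := by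
    intro r hr
    refine hx1 r ?_ ?_
    · rintro rfl
      change 3 + 1 = n at hr
      omega
    · rintro rfl
      change 4 + 1 = n at hr
      omega
  by_cases hB : ∃ i : Fin n, 1 ≤ i.val ∧ i.val ≤ 2 ∧ y i ≠ 0
  · obtain ⟨i, hi1, hi2, hyi⟩ := hB
    exact stepB H hg hdet hi2 hyi hl hl2 hxl hxl0 (fun h => by omega) hx2
  push Not at hB
  -- now `e₀ = y₀ g₀`
  have hy0 : ∀ r, r ≠ c0 → y r = 0 := by
    intro r hr
    have hr0 : r.val ≠ 0 := fun h => hr (Fin.ext h)
    by_cases h1 : r.val ≤ 2
    · exact hB r (by omega) h1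
    · by_cases h2 : r.val + 2 ≤ n
      · exact hA r (by omega) h2
      · exact hg.z4 r (by have := r.2; omega)
  have hyc0 : y c0 ≠ 0 := by
    intro h
    have h1 : y = 0 := by
      funext r
      by_cases hr : r = c0
      · rw [hr, h]; rfl
      · exact hy0 r hr
    have h2 := congrFun hg.z3 c0
    rw [h1, Matrix.mulVec_zero, e0, if_pos rfl] at h2
    exact zero_ne_one h2
  -- a vector of `⟨e₁, e₂⟩ ∩ F_{n-1}`
  obtain ⟨z, hz1, hz2, hz3⟩ : ∃ z : Fin n → ℂ, (∀ r, r ≠ c1 → r ≠ c2 → z r = 0) ∧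
      (g⁻¹ *ᵥ z) cl = 0 ∧ z ≠ 0 := by
    have h12 : c1 ≠ c2 := by
      intro h
      have := congrArg Fin.val h
      change 1 = 2 at this
      omega
    by_cases h0 : g⁻¹ cl c1 = 0
    · refine ⟨Pi.single c1 1, fun r h1 _ => Pi.single_eq_of_ne h1 _, ?_, ?_⟩
      · rw [Matrix.mulVec_single_one]
        exact h0
      · intro h
        have := congrFun h c1
        rw [Pi.single_eq_same] at this
        exact one_ne_zero this
    · refine ⟨Pi.single c1 (g⁻¹ cl c2) - Pi.single c2 (g⁻¹ cl c1), fun r h1 h2 => ?_, ?_, ?_⟩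
      · rw [Pi.sub_apply, Pi.single_eq_of_ne h1, Pi.single_eq_of_ne h2, sub_zero]
      · rw [Matrix.mulVec_sub, Pi.sub_apply, Matrix.mulVec_single, Matrix.mulVec_single]
        simp only [Pi.smul_apply, Matrix.col_apply, MulOpposite.smul_eq_mul_unop,
          MulOpposite.unop_op]
        ring
      · intro h
        have := congrFun h c2
        rw [Pi.sub_apply, Pi.single_eq_of_ne h12.symm, Pi.single_eq_same, zero_sub] at this
        exact h0 (neg_eq_zero.1 this)
  set x := g⁻¹ *ᵥ z with hxdef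
  have hgx : g *ᵥ x = z := by
    rw [hxdef, Matrix.mulVec_mulVec, Matrix.mul_nonsing_inv g hdet.isUnit, Matrix.one_mulVec]
  have hza : ∀ r : Fin n, a ≤ r.val → z r = 0 := by
    intro r hr
    refine hz1 r ?_ ?_
    · rintro rfl
      change a ≤ 1 at hr
      omega
    · rintro rfl
      change a ≤ 2 at hr
      omega
  have hzl : ∀ r : Fin n, r.val + 1 = n → z r = 0 := by
    intro r hr
    refine hz1 r ?_ ?_
    · rintro rfl
      change 1 + 1 = n at hr
      omega
    · rintro rfl
      change 2 + 1 = n at hr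
      omega
  have hxcl : ∀ r : Fin n, r.val + 1 = n → x r = 0 := fun r hr => by rw [hcl r hr]; exact hz2
  by_cases hC : ∃ j : Fin n, 3 ≤ j.val ∧ j.val + 2 ≤ n ∧ x j ≠ 0
  · obtain ⟨j, hj, hj2, hxj⟩ := hC
    exact stepB H hg hdet (i := c0) (by change 0 ≤ 2; omega) hyc0 hj hj2 hxj hxcl
      (fun _ r hr => by rw [hgx]; exact hza r hr) (fun r hr => by rw [hgx]; exact hzl r hr)
  push Not at hC
  -- `x` has a nonzero coordinate in position 1 or 2
  obtain ⟨i, hi1, hi2, hxi⟩ : ∃ i : Fin n, 1 ≤ i.val ∧ i.val ≤ 2 ∧ x i ≠ 0 := by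
    by_contra hcon
    push Not at hcon
    have h1 : ∀ r, r ≠ c0 → x r = 0 := by
      intro r hr
      have hr0 : r.val ≠ 0 := fun h => hr (Fin.ext h)
      by_cases h1 : r.val ≤ 2
      · exact hcon r (by omega) h1
      · by_cases h2 : r.val + 2 ≤ n
        · exact hC r (by omega) h2
        · exact hxcl r (by have := r.2; omega)
    have h2 : x = (x c0 / y c0) • y := by
      funext r
      by_cases hr : r = c0
      · rw [hr, Pi.smul_apply, smul_eq_mul, div_mul_cancel₀ _ hyc0]
      · rw [h1 r hr, Pi.smul_apply, hy0 r hr, smul_zero]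
    have h3 : z = (x c0 / y c0) • e0 n := by
      rw [← hgx, h2, Matrix.mulVec_smul, hg.z3, ← h2]
    have h4 : z = 0 := by
      funext r
      by_cases hr : r.val = 0
      · refine hz1 r ?_ ?_
        · rintro rfl
          change 1 = 0 at hr
          omega
        · rintro rfl
          change 2 = 0 at hr
          omega
      · rw [h3, Pi.smul_apply, e0, if_neg hr, smul_zero]
        rfl
    exact hz3 h4
  have hic0 : i ≠ c0 := by
    rintro rfl
    change 1 ≤ 0 at hi1
    omega
  have hx'i : x' i = 0 := by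
    refine hx1 i ?_ ?_
    · rintro rfl
      change 3 ≤ 2 at hi2
      omega
    · rintro rfl
      change 4 ≤ 2 at hi2
      omega
  refine line g i (g *ᵥ x') hdet 1 one_ne_zero (fun t ht _ htdet => ?_)
  have hZ : InZ a (mv g i (g *ᵥ x') t) y := by
    refine ⟨?_, ?_, ?_, hg.z4⟩
    · intro r c hc hr
      rw [mv, if_neg]
      · exact hg.z1 r c hc hr
      · rintro rfl
        omega
    · intro r c hr hc
      rw [mv]
      split_ifs with hci
      · rw [hg.z2 r c hr hc, hx2 r hr, mul_zero, add_zero]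
      · exact hg.z2 r c hr hc
    · rw [mv_mulVec, hg.z3, hy0 i hic0, mul_zero, zero_smul, add_zero]
  have hgt : mv g i (g *ᵥ x') t *ᵥ (x - (t * x i) • x') = z := by
    rw [mv_mulVec, Matrix.mulVec_sub, Matrix.mulVec_smul, hgx, Pi.sub_apply, Pi.smul_apply, hx'i,
      smul_zero, sub_zero, sub_add_cancel]
  refine stepB H hZ htdet (i := c0) (l := l) (x := x - (t * x i) • x') (by change 0 ≤ 2; omega) hyc0
    hl hl2 ?_ ?_ ?_ ?_
  · rw [Pi.sub_apply, hC l hl hl2, zero_sub, Pi.smul_apply, smul_eq_mul]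
    exact neg_ne_zero.2 (mul_ne_zero (mul_ne_zero ht hxi) hxl)
  · intro r hr
    rw [Pi.sub_apply, Pi.smul_apply, hxcl r hr, hxl0 r hr, smul_zero, sub_zero]
  · intro _ r hr
    rw [hgt]
    exact hza r hr
  · intro r hr
    rw [hgt]
    exact hzl r hr

end Pool.Agent.Hhelper18.MultSch
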