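import Mathlib

/-! Length of modules killed by a power of an ideal with residue field `ℂ`. -/

namespace Pool.Agent.Hhelper18.MS

section

variable {S : Type*} [CommRing S] [Algebra ℂ S] (𝔪 : Ideal S)
  (h𝔪 : ∀ s : S, ∃ c : ℂ, s - algebraMap ℂ S c ∈ 𝔪)

include h𝔪 in
theorem length_of_killed {M : Type*} [AddCommGroup M] [Module S M] [Module ℂ M]
    [IsScalarTower ℂ S M] [Module.Finite ℂ M] (h : ∀ s ∈ 𝔪, ∀ x : M, s • x = 0) :
    Module.length S M = Module.finrank ℂ M := by
  rw [← Module.length_eq_finrank]
  have hs : ∀ (s : S) (c : ℂ), s - algebraMap ℂ S c ∈ 𝔪 → ∀ x : M, s • x = c • x := by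
    intro s c hc x
    have h1 := h _ hc x
    rw [sub_smul, algebraMap_smul, sub_eq_zero] at h1
    exact h1
  let e : Submodule S M ≃o Submodule ℂ M :=
    { toFun := fun N => N.restrictScalars ℂ
      invFun := fun N =>
        { carrier := N
          add_mem' := fun ha hb => N.add_mem ha hb
          zero_mem' := N.zero_mem
          smul_mem' := by
            intro s x hx
            obtain ⟨c, hc⟩ := h𝔪 s
            rw [hs s c hc x]
            exact N.smul_mem c hx }
      left_inv := fun N => rfl
      right_inv := fun N => rfl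
      map_rel_iff' := Iff.rfl }
  rw [Module.length, Module.length, WithBot.unbot_inj, Order.krullDim_eq_of_orderIso e]

include h𝔪 in
theorem length_eq_finrank (m : ℕ) : ∀ {M : Type*} [AddCommGroup M] [Module S M] [Module ℂ M]
    [IsScalarTower ℂ S M] [Module.Finite ℂ M] (_ : ∀ s ∈ 𝔪 ^ m, ∀ x : M, s • x = 0),
    Module.length S M = Module.finrank ℂ M := by
  induction m with
  | zero =>
    intro M _ _ _ _ _ h
    have hsub : Subsingleton M := by
      refine ⟨fun x y => ?_⟩
      have h1 : ∀ x : M, x = 0 := by
        intro x
        have := h 1 (by simp) x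
        rwa [one_smul] at this
      rw [h1 x, h1 y]
    rw [Module.length_eq_zero, Module.finrank_zero_of_subsingleton]
    rfl
  | succ m ih =>
    intro M _ _ _ _ _ h
    let N : Submodule S M := 𝔪 • ⊤
    have h1 : Module.length S N = Module.finrank ℂ N := by
      haveI : Module.Finite ℂ N := inferInstanceAs (Module.Finite ℂ (N.restrictScalars ℂ))
      refine ih (fun s hs x => ?_)
      obtain ⟨x, hx⟩ := x
      have : s • x = 0 := by
        refine Submodule.smul_induction_on hx ?_ ?_
        · intro r hr y _
          rw [smul_smul]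
          refine h _ ?_ y
          rw [pow_succ]
          exact Ideal.mul_mem_mul hs hr
        · intro y z hy hz
          rw [smul_add, hy, hz, add_zero]
      exact Subtype.ext this
    have h2 : Module.length S (M ⧸ N) = Module.finrank ℂ (M ⧸ N) := by
      haveI : Module.Finite ℂ (M ⧸ N) :=
        Module.Finite.of_surjective ((N.mkQ).restrictScalars ℂ) N.mkQ_surjective
      refine length_of_killed 𝔪 h𝔪 (fun s hs x => ?_)
      obtain ⟨x, rfl⟩ := N.mkQ_surjective x
      rw [← map_smul]
      exact (Submodule.Quotient.mk_eq_zero _).2 (Submodule.smul_mem_smul hs Submodule.mem_top)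
    have h3 : Module.length S M = Module.length S N + Module.length S (M ⧸ N) :=
      Module.length_eq_add_of_exact N.subtype N.mkQ N.injective_subtype N.mkQ_surjective
        (LinearMap.exact_subtype_mkQ N)
    have h4 : Module.finrank ℂ (M ⧸ N.restrictScalars ℂ) + Module.finrank ℂ (N.restrictScalars ℂ) =
      Module.finrank ℂ M := Submodule.finrank_quotient_add_finrank _
    have h5 : Module.finrank ℂ (M ⧸ N) = Module.finrank ℂ (M ⧸ N.restrictScalars ℂ) := rfl
    have h6 : Module.finrank ℂ N = Module.finrank ℂ (N.restrictScalars ℂ) := rfl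
    rw [h3, h1, h2, h5, h6, ← h4]
    push_cast
    ring

end

end Pool.Agent.Hhelper18.MS
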