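import Mathlib
import Pool.Agent.Hhelper18.MS.Defs
import Pool.Agent.Hhelper18.MS.Length

/-! The Hilbert-Samuel function of the local ring at the origin. -/

namespace Pool.Agent.Hhelper18.MultSch

open MvPolynomial IsLocalRing

variable {σ : Type}

theorem mem_org (p : MvPolynomial σ ℂ) : p ∈ org σ ↔ constantCoeff p = 0 := RingHom.mem_ker

theorem org_eq : org σ = idealOfVars σ ℂ := by
  have h := mem_pow_idealOfVars_iff' (σ := σ) (R := ℂ) 1
  ext p
  rw [mem_org]
  have h1 := h p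
  rw [pow_one] at h1
  rw [h1]
  constructor
  · intro hp x hx
    have : x = 0 := by
      have := Nat.lt_one_iff.1 hx
      exact (Finsupp.degree_eq_zero_iff x).1 this
    rw [this]
    exact hp
  · intro hp
    exact hp 0 (by simp)

instance : (org σ).IsMaximal :=
  RingHom.ker_isMaximal_of_surjective _ (fun c => ⟨C c, constantCoeff_C σ c⟩)

theorem exists_sub (s : MvPolynomial σ ℂ) :
    ∃ c : ℂ, s - algebraMap ℂ (MvPolynomial σ ℂ) c ∈ org σ := by
  refine ⟨constantCoeff s, ?_⟩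
  rw [mem_org, map_sub, algebraMap_eq, constantCoeff_C, sub_self]

theorem loc_surjective (m : ℕ) (a : AffLoc σ) : ∃ s : MvPolynomial σ ℂ,
    a - algebraMap (MvPolynomial σ ℂ) (AffLoc σ) s ∈ maximalIdeal (AffLoc σ) ^ m := by
  let e := IsLocalization.AtPrime.equivQuotMaximalIdealPow (org σ) (AffLoc σ) m
  obtain ⟨s, hs⟩ := Ideal.Quotient.mk_surjective (e.symm (Ideal.Quotient.mk _ a))
  refine ⟨s, ?_⟩
  rw [← Ideal.Quotient.eq]
  have h1 : e (Ideal.Quotient.mk _ s) = Ideal.Quotient.mk _ a := by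
    rw [hs]; exact e.apply_symm_apply _
  rw [← h1]
  rfl

theorem loc_mem_pow (m : ℕ) (s : MvPolynomial σ ℂ) :
    algebraMap (MvPolynomial σ ℂ) (AffLoc σ) s ∈ maximalIdeal (AffLoc σ) ^ m ↔ s ∈ org σ ^ m := by
  let e := IsLocalization.AtPrime.equivQuotMaximalIdealPow (org σ) (AffLoc σ) m
  have h1 : e (Ideal.Quotient.mk _ s) = Ideal.Quotient.mk _ (algebraMap _ (AffLoc σ) s) := rfl
  rw [← Ideal.Quotient.eq_zero_iff_mem, ← Ideal.Quotient.eq_zero_iff_mem, ← h1]
  exact e.toRingEquiv.map_eq_zero_iff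

/-- membership in the ideal after localization, modulo a power of the maximal ideal -/
theorem loc_mem (I : Ideal (MvPolynomial σ ℂ)) (m : ℕ) (s : MvPolynomial σ ℂ)
    (h : algebraMap (MvPolynomial σ ℂ) (AffLoc σ) s ∈
      I.map (algebraMap (MvPolynomial σ ℂ) (AffLoc σ)) ⊔ maximalIdeal (AffLoc σ) ^ m) :
    s ∈ I ⊔ org σ ^ m := by
  obtain ⟨a, ha, b, hb, hab⟩ := Submodule.mem_sup.1 h
  have key : ∀ a ∈ I.map (algebraMap (MvPolynomial σ ℂ) (AffLoc σ)), ∃ t ∈ I,
      a - algebraMap (MvPolynomial σ ℂ) (AffLoc σ) t ∈ maximalIdeal (AffLoc σ) ^ m := by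
    intro a ha
    refine Submodule.span_induction (p := fun a _ => ∃ t ∈ I,
      a - algebraMap (MvPolynomial σ ℂ) (AffLoc σ) t ∈ maximalIdeal (AffLoc σ) ^ m) ?_ ?_ ?_ ?_ ha
    · rintro _ ⟨t, ht, rfl⟩
      exact ⟨t, ht, by rw [sub_self]; exact Ideal.zero_mem _⟩
    · exact ⟨0, I.zero_mem, by rw [map_zero, sub_zero]; exact Ideal.zero_mem _⟩
    · rintro x y _ _ ⟨t, ht, h1⟩ ⟨t', ht', h2⟩
      refine ⟨t + t', I.add_mem ht ht', ?_⟩
      have := Ideal.add_mem _ h1 h2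
      rw [map_add]
      convert! this using 1
      ring
    · rintro r x _ ⟨t, ht, h1⟩
      obtain ⟨c, hc⟩ := loc_surjective m r
      refine ⟨c * t, I.mul_mem_left _ ht, ?_⟩
      have h2 := Ideal.add_mem _ (Ideal.mul_mem_left _ r h1)
        (Ideal.mul_mem_right (algebraMap (MvPolynomial σ ℂ) (AffLoc σ) t) _ hc)
      rw [map_mul, smul_eq_mul]
      convert! h2 using 1
      ring
  obtain ⟨t, ht, h1⟩ := key a ha
  have h2 : algebraMap (MvPolynomial σ ℂ) (AffLoc σ) (s - t) ∈ maximalIdeal (AffLoc σ) ^ m := by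
    have := Ideal.add_mem _ h1 hb
    rw [map_sub, ← hab]
    convert! this using 1
    ring
  rw [loc_mem_pow] at h2
  have h3 : s = t + (s - t) := by ring
  rw [h3]
  exact Submodule.add_mem_sup ht h2

theorem mk_surjective (I : Ideal (MvPolynomial σ ℂ)) : Function.Surjective (LocRing.mk I) :=
  Ideal.Quotient.mk_surjective

theorem ker_mk (I : Ideal (MvPolynomial σ ℂ)) : RingHom.ker (LocRing.mk I) =
    I.map (algebraMap (MvPolynomial σ ℂ) (AffLoc σ)) := Ideal.mk_ker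

theorem mk_mem_locMax_pow (I : Ideal (MvPolynomial σ ℂ)) (m : ℕ) (a : AffLoc σ) :
    LocRing.mk I a ∈ locMax I ^ m ↔
      a ∈ I.map (algebraMap (MvPolynomial σ ℂ) (AffLoc σ)) ⊔ maximalIdeal (AffLoc σ) ^ m := by
  have h1 : locMax I ^ m = (maximalIdeal (AffLoc σ) ^ m).map (LocRing.mk I) :=
    (Ideal.map_pow (LocRing.mk I) _ m).symm
  rw [h1, ← Ideal.mem_comap, Ideal.comap_map_of_surjective _ (mk_surjective I),
    ← RingHom.ker_eq_comap_bot, ker_mk, sup_comm]

/-- The Hilbert-Samuel function. -/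
theorem length_loc (I : Ideal (MvPolynomial σ ℂ)) (m : ℕ)
    [Module.Finite ℂ (MvPolynomial σ ℂ ⧸ (I ⊔ org σ ^ m))] :
    Module.length (LocRing I) (LocRing I ⧸ locMax I ^ m) =
      Module.finrank ℂ (MvPolynomial σ ℂ ⧸ (I ⊔ org σ ^ m)) := by
  let T := LocRing I ⧸ locMax I ^ m
  let q : MvPolynomial σ ℂ →+* T :=
    ((Ideal.Quotient.mk (locMax I ^ m)).comp (LocRing.mk I)).comp (algebraMap _ (AffLoc σ))
  have hq : Function.Surjective q := by
    intro t
    obtain ⟨r, rfl⟩ := Ideal.Quotient.mk_surjective t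
    obtain ⟨a, rfl⟩ := mk_surjective I r
    obtain ⟨s, hs⟩ := loc_surjective m a
    refine ⟨s, ?_⟩
    symm
    change Ideal.Quotient.mk (locMax I ^ m) _ = Ideal.Quotient.mk (locMax I ^ m) _
    rw [Ideal.Quotient.eq, ← map_sub, mk_mem_locMax_pow]
    exact Ideal.mem_sup_right hs
  have hker : RingHom.ker q = I ⊔ org σ ^ m := by
    ext s
    rw [RingHom.mem_ker]
    change Ideal.Quotient.mk (locMax I ^ m) _ = 0 ↔ _
    rw [Ideal.Quotient.eq_zero_iff_mem]
    change LocRing.mk I (algebraMap _ (AffLoc σ) s) ∈ _ ↔ _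
    rw [mk_mem_locMax_pow]
    constructor
    · exact loc_mem I m s
    · intro hs
      obtain ⟨a, ha, b, hb, rfl⟩ := Submodule.mem_sup.1 hs
      rw [map_add]
      exact Submodule.add_mem_sup (Ideal.mem_map_of_mem _ ha) ((loc_mem_pow m b).2 hb)
  let e : (MvPolynomial σ ℂ ⧸ (I ⊔ org σ ^ m)) ≃+* T :=
    (Ideal.quotEquivOfEq hker.symm).trans (RingHom.quotientKerEquivOfSurjective hq)
  have h1 : Module.length (LocRing I) T = Module.length T T :=
    Module.length_eq_of_surjective (S := LocRing I) (R := T) (M := T) Ideal.Quotient.mk_surjective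
  have h2 : Module.length (MvPolynomial σ ℂ) (MvPolynomial σ ℂ ⧸ (I ⊔ org σ ^ m)) =
      Module.length (MvPolynomial σ ℂ ⧸ (I ⊔ org σ ^ m)) (MvPolynomial σ ℂ ⧸ (I ⊔ org σ ^ m)) :=
    Module.length_eq_of_surjective (S := MvPolynomial σ ℂ) Ideal.Quotient.mk_surjective
  have h3 : Module.length (MvPolynomial σ ℂ ⧸ (I ⊔ org σ ^ m))
      (MvPolynomial σ ℂ ⧸ (I ⊔ org σ ^ m)) = Module.length T T := by
    rw [Module.length, Module.length, WithBot.unbot_inj,
      Order.krullDim_eq_of_orderIso (RingEquiv.idealComapOrderIso e.symm)]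
  have h4 : Module.length (MvPolynomial σ ℂ) (MvPolynomial σ ℂ ⧸ (I ⊔ org σ ^ m)) =
      Module.finrank ℂ (MvPolynomial σ ℂ ⧸ (I ⊔ org σ ^ m)) := by
    refine MS.length_eq_finrank (org σ) exists_sub m (fun s hs x => ?_)
    obtain ⟨x, rfl⟩ := Ideal.Quotient.mk_surjective x
    rw [Algebra.smul_def, Ideal.Quotient.algebraMap_eq, ← map_mul, Ideal.Quotient.eq_zero_iff_mem]
    exact Ideal.mem_sup_right (Ideal.mul_mem_right _ _ hs)
  rw [← h4, h2, h3]
  exact h1

end Pool.Agent.Hhelper18.MultSch
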