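import Mathlib
import Pool.Agent.Hhelper18.MS.Local

/-! Hilbert-Samuel function of a hypersurface. -/

namespace Pool.Agent.Hhelper18.MultSch

open MvPolynomial

section

variable {τ : Type} [Fintype τ] [DecidableEq τ]

/-- monomials of degree less than `m` -/
noncomputable def mon (τ : Type) [Fintype τ] [DecidableEq τ] (m : ℕ) : Finset (τ →₀ ℕ) :=
  (Finset.range m).biUnion (fun j => Finset.finsuppAntidiag Finset.univ j)

theorem mem_mon {m : ℕ} {s : τ →₀ ℕ} : s ∈ mon τ m ↔ s.degree < m := by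
  rw [mon, Finset.mem_biUnion]
  constructor
  · rintro ⟨j, hj, hs⟩
    rw [Finset.mem_finsuppAntidiag] at hs
    rw [Finset.mem_range] at hj
    have : s.degree = j := by
      rw [Finsupp.degree_eq_sum]
      exact hs.1
    omega
  · intro h
    refine ⟨s.degree, Finset.mem_range.2 h, ?_⟩
    rw [Finset.mem_finsuppAntidiag]
    exact ⟨(Finsupp.degree_eq_sum s).symm, Finset.subset_univ _⟩

theorem card_mon (m : ℕ) : (mon τ m).card =
    ∑ j ∈ Finset.range m, (Fintype.card τ + j - 1).choose j := by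
  rw [mon, Finset.card_biUnion]
  · refine Finset.sum_congr rfl (fun j _ => ?_)
    rw [Finset.card_finsuppAntidiag_nat_eq_choose, Finset.card_univ]
  · intro i _ j _ hij
    rw [Function.onFun, Finset.disjoint_left]
    intro s hs hs'
    rw [Finset.mem_finsuppAntidiag] at hs hs'
    exact hij (hs.1.symm.trans hs'.1)

/-- the coefficients of degree less than `m` -/
noncomputable def cf (m : ℕ) : MvPolynomial τ ℂ →ₗ[ℂ] (mon τ m → ℂ) :=
  LinearMap.pi (fun s => MvPolynomial.lcoeff ℂ s.1)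

theorem cf_apply (m : ℕ) (p : MvPolynomial τ ℂ) (s : mon τ m) : cf m p s = coeff s.1 p := rfl

theorem cf_surjective (m : ℕ) : Function.Surjective (cf (τ := τ) m) := by
  intro v
  refine ⟨∑ s : mon τ m, monomial s.1 (v s), ?_⟩
  funext t
  rw [cf_apply, coeff_sum, Finset.sum_eq_single t]
  · rw [coeff_monomial, if_pos rfl]
  · intro s _ hst
    rw [coeff_monomial, if_neg (fun h => hst (Subtype.ext h))]
  · intro h
    exact absurd (Finset.mem_univ t) h

theorem ker_cf (m : ℕ) : LinearMap.ker (cf (τ := τ) m) = (org τ ^ m).restrictScalars ℂ := by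
  ext p
  rw [LinearMap.mem_ker, Submodule.restrictScalars_mem, org_eq, mem_pow_idealOfVars_iff']
  constructor
  · intro h s hs
    exact congrFun h ⟨s, mem_mon.2 hs⟩
  · intro h
    funext s
    exact h s.1 (mem_mon.1 s.2)

/-- the quotient by a power of the maximal ideal -/
noncomputable def quotEquiv (m : ℕ) : (MvPolynomial τ ℂ ⧸ org τ ^ m) ≃ₗ[ℂ] (mon τ m → ℂ) :=
  (Submodule.quotEquivOfEq ((org τ ^ m).restrictScalars ℂ) _ (ker_cf m).symm).trans
    ((cf m).quotKerEquivOfSurjective (cf_surjective m))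

instance finite_quot (m : ℕ) : Module.Finite ℂ (MvPolynomial τ ℂ ⧸ org τ ^ m) :=
  Module.Finite.equiv (quotEquiv m).symm

theorem finrank_quot (m : ℕ) : Module.finrank ℂ (MvPolynomial τ ℂ ⧸ org τ ^ m) =
    ∑ j ∈ Finset.range m, (Fintype.card τ + j - 1).choose j := by
  rw [LinearEquiv.finrank_eq (quotEquiv m), Module.finrank_fintype_fun_eq_card, Fintype.card_coe,
    card_mon]

/-! ### order -/

theorem mem_pow_iff_order (m : ℕ) (p : MvPolynomial τ ℂ) :
    p ∈ org τ ^ m ↔ (m : ℕ∞) ≤ (p : MvPowerSeries τ ℂ).order := by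
  rw [org_eq, mem_pow_idealOfVars_iff']
  constructor
  · intro h
    refine MvPowerSeries.nat_le_order (fun d hd => ?_)
    rw [MvPolynomial.coeff_coe]
    exact h d hd
  · intro h s hs
    rw [← MvPolynomial.coeff_coe]
    refine MvPowerSeries.coeff_of_lt_order (lt_of_lt_of_le ?_ h)
    exact_mod_cast hs

theorem order_of {μ : ℕ} {f : MvPolynomial τ ℂ} (h1 : f ∈ org τ ^ μ) (h2 : f ∉ org τ ^ (μ + 1)) :
    (f : MvPowerSeries τ ℂ).order = μ := by
  rw [mem_pow_iff_order] at h1 h2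
  refine le_antisymm ?_ h1
  rw [not_le] at h2
  push_cast at h2
  exact Order.le_of_lt_add_one h2

theorem mul_mem_pow_iff {μ : ℕ} {f : MvPolynomial τ ℂ} (h1 : f ∈ org τ ^ μ)
    (h2 : f ∉ org τ ^ (μ + 1)) (m : ℕ) (h : MvPolynomial τ ℂ) :
    f * h ∈ org τ ^ (μ + m) ↔ h ∈ org τ ^ m := by
  rw [mem_pow_iff_order, mem_pow_iff_order, MvPolynomial.coe_mul, MvPowerSeries.order_mul,
    order_of h1 h2]
  push_cast
  exact WithTop.add_le_add_iff_left (ENat.coe_ne_top μ)

/-! ### dimension -/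

variable {μ : ℕ} {f : MvPolynomial τ ℂ}

/-- multiplication by `f` -/
noncomputable def mf (f : MvPolynomial τ ℂ) (M : ℕ) :
    MvPolynomial τ ℂ →ₗ[ℂ] (MvPolynomial τ ℂ ⧸ org τ ^ M) :=
  (Ideal.Quotient.mkₐ ℂ (org τ ^ M)).toLinearMap ∘ₗ LinearMap.mulLeft ℂ f

theorem mf_apply (M : ℕ) (h : MvPolynomial τ ℂ) : mf f M h = Ideal.Quotient.mk _ (f * h) := rfl

theorem ker_mf (h1 : f ∈ org τ ^ μ) (h2 : f ∉ org τ ^ (μ + 1)) (m : ℕ) :
    LinearMap.ker (mf f (μ + m)) = (org τ ^ m).restrictScalars ℂ := by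
  ext h
  rw [LinearMap.mem_ker, mf_apply, Ideal.Quotient.eq_zero_iff_mem, mul_mem_pow_iff h1 h2]
  rfl

theorem finrank_range_mf (h1 : f ∈ org τ ^ μ) (h2 : f ∉ org τ ^ (μ + 1)) (m : ℕ) :
    Module.finrank ℂ (LinearMap.range (mf f (μ + m))) =
      ∑ j ∈ Finset.range m, (Fintype.card τ + j - 1).choose j := by
  rw [← finrank_quot, ← LinearEquiv.finrank_eq (mf f (μ + m)).quotKerEquivRange]
  exact LinearEquiv.finrank_eq (Submodule.quotEquivOfEq _ ((org τ ^ m).restrictScalars ℂ)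
    (ker_mf h1 h2 m))

/-- the quotient map -/
noncomputable def qm (f : MvPolynomial τ ℂ) (M : ℕ) : (MvPolynomial τ ℂ ⧸ org τ ^ M) →ₗ[ℂ]
    (MvPolynomial τ ℂ ⧸ (Ideal.span {f} ⊔ org τ ^ M)) :=
  (Ideal.Quotient.factorₐ ℂ (le_sup_right : org τ ^ M ≤ Ideal.span {f} ⊔ org τ ^ M)).toLinearMap

theorem qm_mk (M : ℕ) (h : MvPolynomial τ ℂ) :
    qm f M (Ideal.Quotient.mk _ h) = Ideal.Quotient.mk _ h := rfl

theorem qm_surjective (M : ℕ) : Function.Surjective (qm f M) := by
  intro x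
  obtain ⟨h, rfl⟩ := Ideal.Quotient.mk_surjective x
  exact ⟨Ideal.Quotient.mk _ h, rfl⟩

instance finite_quot' (M : ℕ) :
    Module.Finite ℂ (MvPolynomial τ ℂ ⧸ (Ideal.span {f} ⊔ org τ ^ M)) :=
  Module.Finite.of_surjective (qm f M) (qm_surjective M)

theorem ker_qm (M : ℕ) : LinearMap.ker (qm f M) = LinearMap.range (mf f M) := by
  ext x
  obtain ⟨h, rfl⟩ := Ideal.Quotient.mk_surjective x
  rw [LinearMap.mem_ker, qm_mk, Ideal.Quotient.eq_zero_iff_mem]
  constructor
  · intro hh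
    obtain ⟨a, ha, b, hb, rfl⟩ := Submodule.mem_sup.1 hh
    obtain ⟨c, rfl⟩ := Ideal.mem_span_singleton'.1 ha
    refine ⟨c, ?_⟩
    rw [mf_apply, Ideal.Quotient.eq]
    have : f * c - (c * f + b) = -b := by ring
    rw [this]
    exact neg_mem hb
  · rintro ⟨c, hc⟩
    rw [mf_apply, Ideal.Quotient.eq] at hc
    have : h = f * c - (f * c - h) := by ring
    rw [this]
    exact sub_mem (Ideal.mem_sup_left (Ideal.mul_mem_right _ _ (Ideal.mem_span_singleton_self f)))
      (Ideal.mem_sup_right hc)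

theorem finrank_hyper (h1 : f ∈ org τ ^ μ) (h2 : f ∉ org τ ^ (μ + 1)) (m : ℕ) :
    Module.finrank ℂ (MvPolynomial τ ℂ ⧸ (Ideal.span {f} ⊔ org τ ^ (μ + m))) =
      ∑ i ∈ Finset.range μ, (Fintype.card τ + (m + i) - 1).choose (m + i) := by
  have h3 := LinearMap.finrank_range_add_finrank_ker (qm f (μ + m))
  rw [LinearMap.range_eq_top.2 (qm_surjective _), finrank_top, ker_qm, finrank_range_mf h1 h2,
    finrank_quot, add_comm μ m, Finset.sum_range_add, add_comm m μ] at h3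
  omega

end

/-! ### the multiplicity -/

theorem hasMult_of_finrank {R : Type} [CommRing R] (𝔪 : Ideal R) (N μ : ℕ) (hN : 0 < N) (hμ : 0 < μ)
    (h : ∀ m, Module.length R (R ⧸ 𝔪 ^ (μ + m)) =
      ((∑ i ∈ Finset.range μ, (N + (m + i) - 1).choose (m + i) : ℕ) : ℕ∞)) :
    HasMult R 𝔪 μ := by
  let Q : Polynomial ℚ := ∑ i ∈ Finset.range μ, Polynomial.preHilbertPoly ℚ (N - 1) i
  have hdeg : Q.natDegree ≤ N - 1 := by
    refine Polynomial.natDegree_sum_le_of_forall_le _ _ (fun i _ => ?_)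
    rw [Polynomial.natDegree_preHilbertPoly]
  have hco : Q.coeff (N - 1) = μ * ((N - 1).factorial : ℚ)⁻¹ := by
    rw [Polynomial.finsetSum_coeff]
    simp only [Polynomial.coeff_preHilbertPoly_self, Finset.sum_const, Finset.card_range,
      nsmul_eq_mul]
  have hfac : ((N - 1).factorial : ℚ) ≠ 0 := by exact_mod_cast (N - 1).factorial_ne_zero
  have hne : Q.coeff (N - 1) ≠ 0 := by
    rw [hco]
    exact mul_ne_zero (by exact_mod_cast hμ.ne') (inv_ne_zero hfac)
  have hnd : Q.natDegree = N - 1 := le_antisymm hdeg (Polynomial.le_natDegree_of_ne_zero hne)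
  refine ⟨Q, ?_, ?_⟩
  · rw [IsHilbertSamuel, Filter.eventually_atTop]
    refine ⟨μ, fun k hk =>
      ⟨∑ i ∈ Finset.range μ, (N + ((k + 1 - μ) + i) - 1).choose ((k + 1 - μ) + i), ?_, ?_⟩⟩
    · have hk' : k + 1 = μ + (k + 1 - μ) := by omega
      have h2 := h (k + 1 - μ)
      rw [← hk'] at h2
      exact h2
    · rw [Polynomial.eval_finset_sum]
      push_cast
      rw [← Finset.sum_range_reflect]
      refine Finset.sum_congr rfl (fun i hi => ?_)
      rw [Finset.mem_range] at hi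
      rw [Polynomial.preHilbertPoly_eq_choose_sub_add ℚ _ (by omega : μ - 1 - i ≤ k)]
      have e1 : k + 1 - μ + i = k - (μ - 1 - i) := by omega
      rw [e1]
      have e2 : N + (k - (μ - 1 - i)) - 1 = k - (μ - 1 - i) + (N - 1) := by omega
      rw [e2, Nat.choose_symm_add]
  · rw [Polynomial.leadingCoeff, hnd, hco]
    field_simp

end Pool.Agent.Hhelper18.MultSch
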