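import Mathlib
import Pool.Agent.Hhelper18.MS.Hyper

/-! The local ring of a hypersurface in a coordinate subspace. -/

namespace Pool.Agent.Hhelper18.MultSch

open MvPolynomial

/-- a nonzero polynomial of degree at most one in each variable is squarefree -/
theorem squarefree_of_degreeOf {τ : Type} [Finite τ] {f : MvPolynomial τ ℂ} (hf : f ≠ 0)
    (h : ∀ i, degreeOf i f ≤ 1) : Squarefree f := by
  classical
  intro x hx
  obtain ⟨r, hr⟩ := hx
  have hx0 : x ≠ 0 := by
    rintro rfl
    apply hf
    rw [hr]; ring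
  have hr0 : r ≠ 0 := by
    rintro rfl
    apply hf
    rw [hr]; ring
  have h1 : ∀ i, degreeOf i x = 0 := by
    intro i
    have h2 := h i
    rw [hr, degreeOf_mul_eq (mul_ne_zero hx0 hx0) hr0, degreeOf_mul_eq hx0 hx0] at h2
    omega
  have h2 : x.vars = ∅ := by
    rw [Finset.eq_empty_iff_forall_notMem]
    intro i hi
    have h3 := h1 i
    rw [degreeOf_def] at h3
    rw [vars_def, Multiset.mem_toFinset] at hi
    exact absurd (Multiset.count_pos.2 hi) (by omega)
  rw [vars_eq_empty_iff_eq_C] at h2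
  rw [h2]
  have h3 : coeff 0 x ≠ 0 := by
    intro h4
    rw [h4, map_zero] at h2
    exact hx0 h2
  exact (IsUnit.mk0 _ h3).map C

section

variable {σ : Type} [Fintype σ] [DecidableEq σ] (P : σ → Prop) [DecidablePred P]

/-- restriction to the coordinate subspace where the coordinates in `P` vanish -/
noncomputable def kill : MvPolynomial σ ℂ →ₐ[ℂ] MvPolynomial {e // ¬ P e} ℂ :=
  aeval (fun e => if h : P e then 0 else X ⟨e, h⟩)

theorem kill_X (e : σ) : kill P (X e) = if h : P e then 0 else X ⟨e, h⟩ := aeval_X _ _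

/-- extension by zero -/
noncomputable def ext0 (z : {e // ¬ P e} → ℂ) (e : σ) : ℂ := if h : P e then 0 else z ⟨e, h⟩

theorem eval_kill (z : {e // ¬ P e} → ℂ) (h : MvPolynomial σ ℂ) :
    eval z (kill P h) = eval (ext0 P z) h := by
  have : (aeval z : MvPolynomial {e // ¬ P e} ℂ →ₐ[ℂ] ℂ).comp (kill P) = aeval (ext0 P z) := by
    apply algHom_ext
    intro e
    rw [AlgHom.comp_apply, kill_X, aeval_X, ext0]
    split_ifs with he
    · rw [map_zero]
    · rw [aeval_X]
  have h1 := congrArg (fun F => F h) this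
  simpa [aeval_eq_eval] using h1

theorem kill_rename (h : MvPolynomial {e // ¬ P e} ℂ) :
    kill P (rename Subtype.val h) = h := by
  have : (kill P).comp (rename Subtype.val) = AlgHom.id ℂ _ := by
    apply algHom_ext
    rintro ⟨e, he⟩
    rw [AlgHom.comp_apply, rename_X, kill_X, dif_neg he]
    rfl
  exact congrArg (fun F => F h) this

theorem kill_surjective : Function.Surjective (kill P) := fun h => ⟨_, kill_rename P h⟩

theorem constantCoeff_kill (h : MvPolynomial σ ℂ) :
    constantCoeff (kill P h) = constantCoeff h := by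
  have h1 := eval_kill P 0 h
  have h2 : ext0 P 0 = 0 := by
    funext e
    rw [ext0]
    split_ifs <;> rfl
  rw [h2] at h1
  rwa [MvPolynomial.eval_zero, MvPolynomial.eval_zero] at h1

theorem kill_org_pow (m : ℕ) {h : MvPolynomial σ ℂ} (hh : h ∈ org σ ^ m) :
    kill P h ∈ org {e // ¬ P e} ^ m := by
  have h1 : (org σ).map (kill P).toRingHom ≤ org {e // ¬ P e} := by
    rw [Ideal.map_le_iff_le_comap]
    intro p hp
    rw [Ideal.mem_comap, mem_org]
    change constantCoeff (kill P p) = 0
    rw [constantCoeff_kill]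
    exact (mem_org p).1 hp
  have h2 : (org σ ^ m).map (kill P).toRingHom ≤ org {e // ¬ P e} ^ m := by
    rw [Ideal.map_pow]
    exact Ideal.pow_right_mono h1 m
  exact h2 (Ideal.mem_map_of_mem _ hh)

theorem rename_org_pow (m : ℕ) {h : MvPolynomial {e // ¬ P e} ℂ} (hh : h ∈ org {e // ¬ P e} ^ m) :
    rename Subtype.val h ∈ org σ ^ m := by
  have h1 : (org {e // ¬ P e}).map (rename (Subtype.val : {e // ¬ P e} → σ) :
      MvPolynomial {e // ¬ P e} ℂ →ₐ[ℂ] MvPolynomial σ ℂ).toRingHom ≤ org σ := by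
    rw [Ideal.map_le_iff_le_comap]
    intro p hp
    rw [Ideal.mem_comap, mem_org]
    change constantCoeff (rename Subtype.val p) = 0
    rw [constantCoeff_rename]
    exact (mem_org p).1 hp
  have h2 : (org {e // ¬ P e} ^ m).map (rename (Subtype.val : {e // ¬ P e} → σ) :
      MvPolynomial {e // ¬ P e} ℂ →ₐ[ℂ] MvPolynomial σ ℂ).toRingHom ≤ org σ ^ m := by
    rw [Ideal.map_pow]
    exact Ideal.pow_right_mono h1 m
  exact h2 (Ideal.mem_map_of_mem _ hh)

variable (f : MvPolynomial {e // ¬ P e} ℂ)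

/-- comparison of quotients -/
noncomputable def quotKill (m : ℕ) :
    (MvPolynomial σ ℂ ⧸ ((Ideal.span {f}).comap (kill P).toRingHom ⊔ org σ ^ m)) ≃ₗ[ℂ]
      (MvPolynomial {e // ¬ P e} ℂ ⧸ (Ideal.span {f} ⊔ org {e // ¬ P e} ^ m)) := by
  let ψ : MvPolynomial σ ℂ →ₐ[ℂ] (MvPolynomial {e // ¬ P e} ℂ ⧸
    (Ideal.span {f} ⊔ org {e // ¬ P e} ^ m)) := (Ideal.Quotient.mkₐ ℂ _).comp (kill P)
  have hψ : Function.Surjective ψ := by
    intro y
    obtain ⟨y, rfl⟩ := Ideal.Quotient.mk_surjective y
    obtain ⟨x, rfl⟩ := kill_surjective P y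
    exact ⟨x, rfl⟩
  have hker : RingHom.ker ψ = (Ideal.span {f}).comap (kill P).toRingHom ⊔ org σ ^ m := by
    ext x
    rw [RingHom.mem_ker]
    change Ideal.Quotient.mk _ (kill P x) = 0 ↔ _
    rw [Ideal.Quotient.eq_zero_iff_mem]
    constructor
    · intro hx
      obtain ⟨a, ha, b, hb, hab⟩ := Submodule.mem_sup.1 hx
      have h1 : x = (x - rename Subtype.val b) + rename Subtype.val b := by ring
      rw [h1]
      refine Submodule.add_mem_sup ?_ (rename_org_pow P m hb)
      rw [Ideal.mem_comap]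
      change kill P (x - rename Subtype.val b) ∈ _
      rw [map_sub, kill_rename, ← hab, add_sub_cancel_right]
      exact ha
    · intro hx
      obtain ⟨a, ha, b, hb, rfl⟩ := Submodule.mem_sup.1 hx
      rw [map_add]
      exact Submodule.add_mem_sup ha (kill_org_pow P m hb)
  exact ((Ideal.quotientEquivAlgOfEq ℂ hker.symm).trans
    (Ideal.quotientKerAlgEquivOfSurjective hψ)).toLinearEquiv

theorem mult_of {μ : ℕ} (hμ : 0 < μ) (h1 : f ∈ org {e // ¬ P e} ^ μ)
    (h2 : f ∉ org {e // ¬ P e} ^ (μ + 1)) (hN : Nonempty {e // ¬ P e}) :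
    HasMult (LocRing ((Ideal.span {f}).comap (kill P).toRingHom))
      (locMax ((Ideal.span {f}).comap (kill P).toRingHom)) μ := by
  refine hasMult_of_finrank _ (Fintype.card {e // ¬ P e}) μ Fintype.card_pos hμ (fun m => ?_)
  haveI : Module.Finite ℂ (MvPolynomial σ ℂ ⧸
      ((Ideal.span {f}).comap (kill P).toRingHom ⊔ org σ ^ (μ + m))) :=
    Module.Finite.equiv (quotKill P f (μ + m)).symm
  rw [length_loc, LinearEquiv.finrank_eq (quotKill P f (μ + m)), finrank_hyper h1 h2]

/-- the ideal of the closed set -/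
theorem vanishing_eq (hf : Squarefree f) (V : Set (σ → ℂ))
    (hV : ∀ z, z ∈ V ↔ (∀ e, P e → z e = 0) ∧ eval (fun e : {e // ¬ P e} => z e.1) f = 0) :
    vanishingIdeal ℂ V = (Ideal.span {f}).comap (kill P).toRingHom := by
  ext h
  rw [mem_vanishingIdeal_iff, Ideal.mem_comap]
  change _ ↔ kill P h ∈ Ideal.span {f}
  have h1 : (Ideal.span {f}).IsRadical := by
    rw [← isRadical_iff_span_singleton]
    exact hf.isRadical
  have h2 : vanishingIdeal ℂ (zeroLocus ℂ (Ideal.span {f})) = Ideal.span {f} := by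
    rw [vanishingIdeal_zeroLocus_eq_radical, h1.radical]
  rw [← h2, mem_vanishingIdeal_iff]
  constructor
  · intro hh z hz
    have hz' : eval z f = 0 := by
      have := hz f (Ideal.mem_span_singleton_self f)
      simpa [aeval_eq_eval] using this
    have h3 := hh (ext0 P z) (by
      rw [hV]
      refine ⟨fun e he => by rw [ext0, dif_pos he], ?_⟩
      rw [← hz']
      congr 2
      funext e
      rw [ext0, dif_neg e.2])
    rw [aeval_eq_eval] at h3 ⊢
    change eval _ h = 0 at h3
    change eval z (kill P h) = 0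
    rw [eval_kill]
    exact h3
  · intro hh z hz
    rw [hV] at hz
    have h3 := hh (fun e : {e // ¬ P e} => z e.1) (by
      intro p hp
      obtain ⟨c, rfl⟩ := Ideal.mem_span_singleton'.1 hp
      rw [map_mul, aeval_eq_eval]
      change _ * eval _ f = 0
      rw [hz.2, mul_zero])
    rw [aeval_eq_eval] at h3 ⊢
    change eval _ (kill P h) = 0 at h3
    rw [eval_kill] at h3
    change eval z h = 0
    have h4 : ext0 P (fun e : {e // ¬ P e} => z e.1) = z := by
      funext e
      rw [ext0]
      split_ifs with he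
      · exact (hz.1 e he).symm
      · rfl
    rwa [h4] at h3

end

end Pool.Agent.Hhelper18.MultSch
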