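import Mathlib
import Pool.Agent.Hhelper18.MS.Path
import Pool.Agent.Hhelper18.MS.Reduce

/-! The charts of the Schubert variety are hypersurfaces in coordinate subspaces. -/

set_option maxHeartbeats 400000

namespace Pool.Agent.Hhelper18.MultSch

open MvPolynomial Matrix

/-! ### Determinants -/

theorem det_low {n : ℕ} {R : Type*} [CommRing R] {A : Matrix (Fin n) (Fin n) R}
    (h1 : ∀ i, A i i = 1) (h0 : ∀ i j, i < j → A i j = 0) : A.det = 1 := by
  rw [Matrix.det_of_isLowerTriangular A (fun i j h => h0 i j h)]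
  exact Finset.prod_eq_one (fun i _ => h1 i)

theorem adj_eq {n : ℕ} {R : Type*} [CommRing R] {A : Matrix (Fin n) (Fin n) R} (hA : A.det = 1)
    {y : Fin n → R} {k : Fin n} (h : A *ᵥ y = Pi.single k 1) (l : Fin n) :
    A.adjugate l k = y l := by
  have h1 : A.adjugate *ᵥ (A *ᵥ y) = y := by
    rw [Matrix.mulVec_mulVec, Matrix.adjugate_mul, hA, one_smul, Matrix.one_mulVec]
  rw [h, Matrix.mulVec_single_one] at h1
  exact congrFun h1 l

theorem adj_col {n : ℕ} {R : Type*} [CommRing R] {A : Matrix (Fin n) (Fin n) R} (hA : A.det = 1)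
    (k : Fin n) : (A *ᵥ fun i => A.adjugate i k) = Pi.single k 1 := by
  have h1 : (fun i => A.adjugate i k) = A.adjugate *ᵥ Pi.single k 1 := by
    rw [Matrix.mulVec_single_one]
    rfl
  rw [h1, Matrix.mulVec_mulVec, Matrix.mul_adjugate, hA, one_smul, Matrix.one_mulVec]

variable {n a : ℕ} {w u : Equiv.Perm (Fin n)}

theorem unip_diag (z : Low n → ℂ) (i : Fin n) : unip z i i = 1 := by
  rw [unip, Matrix.of_apply, dif_neg (lt_irrefl i), if_pos rfl]

theorem unip_upper (z : Low n → ℂ) (i j : Fin n) (h : i < j) : unip z i j = 0 := by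
  rw [unip, Matrix.of_apply, dif_neg (not_lt.2 h.le), if_neg h.ne]

theorem unip_lower (z : Low n → ℂ) (i j : Fin n) (h : j < i) : unip z i j = z ⟨(i, j), h⟩ := by
  rw [unip, Matrix.of_apply, dif_pos h]

theorem det_unip (z : Low n → ℂ) : (unip z).det = 1 := det_low (unip_diag z) (unip_upper z)

/-- conditions on `u` -/
structure Pos (n a : ℕ) (u : Equiv.Perm (Fin n)) : Prop where
  h0 : ∀ c, c.val = 0 → (u c).val < a
  h2 : ∀ c, c.val ≤ 2 → (u c).val + 1 ≠ n
  hl : ∀ c, c.val + 1 = n → (u c).val ≠ 0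

theorem pos_of (H : Hyp n a w) (hu : PointMem u w) : Pos n a u := by
  have h := inZ_schubert H (det_permMat u) hu
  refine ⟨?_, ?_, ?_⟩
  · intro c hc
    by_contra hcon
    have h1 := h.z1 (u c) c hc (not_lt.1 hcon)
    rw [permMat, Matrix.of_apply, if_pos rfl] at h1
    exact one_ne_zero h1
  · intro c hc hcon
    have h1 := h.z2 (u c) c hcon hc
    rw [permMat, Matrix.of_apply, if_pos rfl] at h1
    exact one_ne_zero h1
  · intro c hc hcon
    have h1 := congrFun h.z3 (u c)
    rw [permMat_mulVec, Equiv.symm_apply_apply, h.z4 c hc, e0, if_pos hcon] at h1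
    exact zero_ne_one h1

/-- the coordinates which vanish on the Schubert variety -/
def PP (a : ℕ) (u : Equiv.Perm (Fin n)) (e : Low n) : Prop :=
  (e.1.2.val = 0 ∧ a ≤ (u e.1.1).val) ∨ (e.1.2.val ≤ 2 ∧ (u e.1.1).val + 1 = n)

instance (a : ℕ) (u : Equiv.Perm (Fin n)) : DecidablePred (PP a u) := fun e => by
  unfold PP
  infer_instance

theorem mem_V_iff (H : Hyp n a w) (hP : Pos n a u) {k l : Fin n} (hk : (u k).val = 0)
    (hl : l.val + 1 = n) (z : Low n → ℂ) : permMat u * unip z ∈ schubert w ↔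
      (∀ e, PP a u e → z e = 0) ∧ (unip z).adjugate l k = 0 := by
  have hdet : (permMat u * unip z).det ≠ 0 := by
    rw [Matrix.det_mul, det_unip, mul_one]
    exact det_permMat u
  constructor
  · intro hg
    have h := inZ_schubert H hdet hg
    set y := (permMat u * unip z)⁻¹ *ᵥ e0 n
    refine ⟨?_, ?_⟩
    · rintro ⟨⟨i, j⟩, hij⟩ (⟨h1, h2⟩ | ⟨h1, h2⟩)
      · have h3 := h.z1 (u i) j h1 h2
        rw [permMat_mul, Equiv.symm_apply_apply, unip_lower z i j hij] at h3
        exact h3
      · have h3 := h.z2 (u i) j h2 h1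
        rw [permMat_mul, Equiv.symm_apply_apply, unip_lower z i j hij] at h3
        exact h3
    · have h3 : unip z *ᵥ y = Pi.single k 1 := by
        funext i
        have h4 := congrFun h.z3 (u i)
        rw [← Matrix.mulVec_mulVec, permMat_mulVec, Equiv.symm_apply_apply, e0] at h4
        rw [h4]
        by_cases hi : i = k
        · rw [hi, Pi.single_eq_same, if_pos hk]
        · rw [Pi.single_eq_of_ne hi, if_neg]
          intro h5
          exact hi (u.injective (Fin.ext (h5.trans hk.symm)))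
      rw [adj_eq (det_unip z) h3]
      exact h.z4 l hl
  · rintro ⟨h1, h2⟩
    refine mem_schubert H (y := fun i => (unip z).adjugate i k) ⟨?_, ?_, ?_, ?_⟩ hdet
    · intro r c hc hr
      have hlt : c < u.symm r := by
        rw [Fin.lt_def, hc]
        by_contra hcon
        have h3 := hP.h0 (u.symm r) (by omega)
        rw [Equiv.apply_symm_apply] at h3
        omega
      rw [permMat_mul, unip_lower z _ _ hlt]
      exact h1 _ (Or.inl ⟨hc, by rw [Equiv.apply_symm_apply]; exact hr⟩)
    · intro r c hr hc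
      have hlt : c < u.symm r := by
        rw [Fin.lt_def]
        by_contra hcon
        have h3 := hP.h2 (u.symm r) (by omega)
        rw [Equiv.apply_symm_apply] at h3
        exact h3 hr
      rw [permMat_mul, unip_lower z _ _ hlt]
      exact h1 _ (Or.inr ⟨hc, by rw [Equiv.apply_symm_apply]; exact hr⟩)
    · funext r
      rw [← Matrix.mulVec_mulVec, permMat_mulVec, adj_col (det_unip z), e0]
      by_cases hr : r.val = 0
      · have h3 : u.symm r = k := by
          rw [Equiv.symm_apply_eq]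
          exact Fin.ext (hr.trans hk.symm)
        rw [h3, Pi.single_eq_same, if_pos hr]
      · rw [Pi.single_eq_of_ne, if_neg hr]
        intro h
        rw [Equiv.symm_apply_eq] at h
        rw [h] at hr
        exact hr hk
    · intro r hr
      have h3 : r = l := Fin.ext (by omega)
      rw [h3]
      exact h2

/-! ### The equation -/

section

variable (P : Low n → Prop) [DecidablePred P]

/-- the generic unipotent matrix in the coordinate subspace -/
noncomputable def gen : Matrix (Fin n) (Fin n) (MvPolynomial {e // ¬ P e} ℂ) := fun i j =>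
  if h : j < i then (if hp : P ⟨(i, j), h⟩ then 0 else X ⟨⟨(i, j), h⟩, hp⟩)
    else if i = j then 1 else 0

theorem gen_diag (i : Fin n) : gen P i i = 1 := by
  rw [gen, dif_neg (lt_irrefl i), if_pos rfl]

theorem gen_upper (i j : Fin n) (h : i < j) : gen P i j = 0 := by
  rw [gen, dif_neg (not_lt.2 h.le), if_neg h.ne]

theorem det_gen : (gen P).det = 1 := det_low (gen_diag P) (gen_upper P)

theorem eval_gen (z : Low n → ℂ) (hz : ∀ e, P e → z e = 0) (i j : Fin n) :
    eval (fun e : {e // ¬ P e} => z e.1) (gen P i j) = unip z i j := by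
  rw [gen, unip, Matrix.of_apply]
  split_ifs with h1 h2 h3
  · rw [map_zero, hz _ h2]
  · rw [eval_X]
  · rw [map_one]
  · rw [map_zero]

theorem eval_adj_gen (z : Low n → ℂ) (hz : ∀ e, P e → z e = 0) (l k : Fin n) :
    eval (fun e : {e // ¬ P e} => z e.1) ((gen P).adjugate l k) = (unip z).adjugate l k := by
  have h1 : (eval (fun e : {e // ¬ P e} => z e.1)).mapMatrix (gen P) = unip z := by
    ext i j
    exact eval_gen P z hz i j
  have h2 := RingHom.map_adjugate (eval (fun e : {e // ¬ P e} => z e.1)) (gen P)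
  rw [h1] at h2
  exact congrFun (congrFun h2 l) k

theorem degreeOf_gen (e : {e // ¬ P e}) (i j : Fin n) :
    degreeOf e (gen P i j) ≤ if i = e.1.1.1 ∧ j = e.1.1.2 then 1 else 0 := by
  rw [gen]
  split_ifs with h1 h2 h3 h4 h5 h6 h7
  · rw [degreeOf_zero]; exact Nat.zero_le _
  · rw [degreeOf_zero]
  · classical
    rw [degreeOf_X]
    split_ifs
    · exact le_rfl
    · exact Nat.zero_le _
  · rw [degreeOf_X_of_ne]
    rintro rfl
    exact h4 ⟨rfl, rfl⟩
  · rw [degreeOf_one]; exact Nat.zero_le _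
  · rw [degreeOf_one]
  · rw [degreeOf_zero]; exact Nat.zero_le _
  · rw [degreeOf_zero]

theorem degreeOf_adj (e : {e // ¬ P e}) (l k : Fin n) :
    degreeOf e ((gen P).adjugate l k) ≤ 1 := by
  rw [Matrix.adjugate_apply, Matrix.det_apply]
  refine (degreeOf_sum_le _ _ _).trans (Finset.sup_le (fun σ _ => ?_))
  have h1 : ∀ r c, degreeOf e ((gen P).updateRow k (Pi.single l 1) r c) ≤
      if r = e.1.1.1 ∧ c = e.1.1.2 then 1 else 0 := by
    intro r c
    rw [Matrix.updateRow_apply]
    by_cases hr : r = k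
    · rw [if_pos hr]
      by_cases hc : c = l
      · rw [hc, Pi.single_eq_same, degreeOf_one]
        exact Nat.zero_le _
      · rw [Pi.single_eq_of_ne hc, degreeOf_zero]
        exact Nat.zero_le _
    · rw [if_neg hr]
      exact degreeOf_gen P e r c
  have h2 : degreeOf e (∏ i, (gen P).updateRow k (Pi.single l 1) (σ i) i) ≤ 1 := by
    refine (degreeOf_prod_le _ _ _).trans ?_
    refine (Finset.sum_le_sum (fun c _ => (h1 (σ c) c).trans
      (?_ : _ ≤ if c = e.1.1.2 then 1 else 0))).trans ?_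
    · split_ifs with h3 h4 h4
      · exact le_rfl
      · exact absurd h3.2 h4
      · exact Nat.zero_le _
      · exact le_rfl
    · rw [Finset.sum_ite_eq' Finset.univ e.1.1.2 (fun _ => 1), if_pos (Finset.mem_univ _)]
  rcases Int.units_eq_one_or (Equiv.Perm.sign σ) with h3 | h3
  · rw [h3, one_smul]
    exact h2
  · rw [h3, Units.neg_smul, one_smul, degreeOf_neg]
    exact h2

/-! ### Specialisation -/

variable (T : Fin n → Fin n → Prop) [∀ i j, Decidable (T i j)]

/-- specialisation of the coordinates in `T` to `t`, the others to zero -/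
noncomputable def spec : MvPolynomial {e // ¬ P e} ℂ →ₐ[ℂ] Polynomial ℂ :=
  aeval (fun e => if T e.1.1.1 e.1.1.2 then Polynomial.X else 0)

theorem spec_coeff (f : MvPolynomial {e // ¬ P e} ℂ) :
    (spec P T f).coeff 0 = constantCoeff f := by
  have h1 : (Polynomial.aeval (0 : ℂ) : Polynomial ℂ →ₐ[ℂ] ℂ).comp (spec P T) =
      aeval (0 : {e // ¬ P e} → ℂ) := by
    apply algHom_ext
    intro e
    rw [AlgHom.comp_apply, spec, aeval_X, aeval_X]
    split_ifs
    · rw [Polynomial.aeval_X]
      rfl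
    · rw [map_zero]
      rfl
  have h2 := congrArg (fun F => F f) h1
  simp only [AlgHom.comp_apply] at h2
  rw [Polynomial.coe_aeval_eq_eval, aeval_eq_eval] at h2
  rw [Polynomial.coeff_zero_eq_eval_zero, h2]
  change eval 0 f = _
  rw [MvPolynomial.eval_zero]

theorem spec_pow {m : ℕ} {f : MvPolynomial {e // ¬ P e} ℂ} (hf : f ∈ org {e // ¬ P e} ^ m) :
    Polynomial.X ^ m ∣ spec P T f := by
  have h1 : (org {e // ¬ P e}).map (spec P T).toRingHom ≤ Ideal.span {Polynomial.X} := by
    rw [Ideal.map_le_iff_le_comap]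
    intro p hp
    rw [Ideal.mem_comap, Ideal.mem_span_singleton]
    change Polynomial.X ∣ spec P T p
    rw [Polynomial.X_dvd_iff, spec_coeff]
    exact (mem_org p).1 hp
  have h2 : (org {e // ¬ P e} ^ m).map (spec P T).toRingHom ≤ Ideal.span {Polynomial.X ^ m} := by
    rw [Ideal.map_pow, ← Ideal.span_singleton_pow]
    exact Ideal.pow_right_mono h1 m
  exact Ideal.mem_span_singleton.1 (h2 (Ideal.mem_map_of_mem _ hf))

/-- the specialised matrix -/
noncomputable def spM : Matrix (Fin n) (Fin n) (Polynomial ℂ) :=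
  (spec P T).toRingHom.mapMatrix (gen P)

theorem spM_apply (hT : ∀ i j, T i j → ∃ h : j < i, ¬ P ⟨(i, j), h⟩) (i j : Fin n) :
    spM P T i j = (if i = j then 1 else 0) + if T i j then Polynomial.X else 0 := by
  change spec P T (gen P i j) = _
  rw [gen]
  by_cases h1 : j < i
  · rw [dif_pos h1, if_neg h1.ne']
    by_cases h2 : P ⟨(i, j), h1⟩
    · rw [dif_pos h2, map_zero, if_neg, add_zero]
      intro h3
      exact (hT i j h3).choose_spec h2
    · rw [dif_neg h2, spec, aeval_X, zero_add]
  · rw [dif_neg h1]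
    have h3 : ¬ T i j := fun h => h1 (hT i j h).choose
    rw [if_neg h3, add_zero]
    split_ifs
    · rw [map_one]
    · rw [map_zero]

theorem det_spM : (spM P T).det = 1 := by
  refine det_low (fun i => ?_) (fun i j hij => ?_)
  · change spec P T (gen P i i) = _
    rw [gen_diag, map_one]
  · change spec P T (gen P i j) = _
    rw [gen_upper P i j hij, map_zero]

theorem not_mem_of_spec {r : ℕ} {k l : Fin n} (y : Fin n → Polynomial ℂ)
    (h : spM P T *ᵥ y = Pi.single k 1) (hy : (y l).coeff r ≠ 0) :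
    (gen P).adjugate l k ∉ org {e // ¬ P e} ^ (r + 1) := by
  intro hf
  have h1 := spec_pow P T hf
  have h2 : spec P T ((gen P).adjugate l k) = y l := by
    rw [← adj_eq (det_spM P T) h l]
    have h3 := RingHom.map_adjugate (spec P T).toRingHom (gen P)
    exact congrFun (congrFun h3 l) k
  rw [h2, Polynomial.X_pow_dvd_iff] at h1
  exact hy (h1 r (Nat.lt_succ_self r))

end

section

variable (P : Low n → Prop) [DecidablePred P] {k l m : Fin n}

/-- a direct edge -/
theorem not_mem_one (hkl : k < l) (h1 : ¬ P ⟨(l, k), hkl⟩) :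
    (gen P).adjugate l k ∉ org {e // ¬ P e} ^ 2 := by
  refine not_mem_of_spec P (fun i j => i = l ∧ j = k) (r := 1)
    (Pi.single k 1 - Polynomial.X • Pi.single l 1) ?_ ?_
  · have hT : ∀ i j : Fin n, (i = l ∧ j = k) → ∃ h : j < i, ¬ P ⟨(i, j), h⟩ := by
      rintro i j ⟨rfl, rfl⟩
      exact ⟨hkl, h1⟩
    funext i
    rw [Matrix.mulVec_sub, Matrix.mulVec_smul, Matrix.mulVec_single_one, Matrix.mulVec_single_one,
      Pi.sub_apply, Pi.smul_apply, Matrix.col_apply, Matrix.col_apply, spM_apply _ _ hT,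
      spM_apply _ _ hT, Pi.single_apply, smul_eq_mul]
    simp only [hkl.ne', and_false, and_true, if_false, add_zero]
    split_ifs <;> ring
  · rw [Pi.sub_apply, Pi.smul_apply, Pi.single_eq_same, Pi.single_eq_of_ne hkl.ne', smul_eq_mul,
      mul_one, zero_sub, Polynomial.coeff_neg, Polynomial.coeff_X_one]
    exact neg_ne_zero.2 one_ne_zero

/-- two edges -/
theorem not_mem_two (hkm : k < m) (hml : m < l) (h1 : ¬ P ⟨(m, k), hkm⟩)
    (h2 : ¬ P ⟨(l, m), hml⟩) : (gen P).adjugate l k ∉ org {e // ¬ P e} ^ 3 := by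
  have hkl : k < l := hkm.trans hml
  refine not_mem_of_spec P (fun i j => (i = m ∧ j = k) ∨ (i = l ∧ j = m)) (r := 2)
    (Pi.single k 1 - Polynomial.X • Pi.single m 1 + Polynomial.X ^ 2 • Pi.single l 1) ?_ ?_
  · have hT : ∀ i j : Fin n, ((i = m ∧ j = k) ∨ (i = l ∧ j = m)) →
        ∃ h : j < i, ¬ P ⟨(i, j), h⟩ := by
      rintro i j (⟨rfl, rfl⟩ | ⟨rfl, rfl⟩)
      · exact ⟨hkm, h1⟩
      · exact ⟨hml, h2⟩
    funext i
    rw [Matrix.mulVec_add, Matrix.mulVec_sub, Matrix.mulVec_smul, Matrix.mulVec_smul,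
      Matrix.mulVec_single_one, Matrix.mulVec_single_one, Matrix.mulVec_single_one,
      Pi.add_apply, Pi.sub_apply, Pi.smul_apply, Pi.smul_apply, Matrix.col_apply,
      Matrix.col_apply, Matrix.col_apply, spM_apply _ _ hT, spM_apply _ _ hT, spM_apply _ _ hT,
      Pi.single_apply, smul_eq_mul, smul_eq_mul]
    simp only [hkm.ne', hkm.ne, hml.ne', hml.ne, hkl.ne, hkl.ne', and_false, and_true, if_false,
      add_zero, or_false, false_or]
    split_ifs <;> ring
  · rw [Pi.add_apply, Pi.sub_apply, Pi.smul_apply, Pi.smul_apply, Pi.single_eq_same,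
      Pi.single_eq_of_ne hkl.ne', Pi.single_eq_of_ne hml.ne', smul_zero, sub_zero, zero_add,
      smul_eq_mul, mul_one, Polynomial.coeff_X_pow, if_pos rfl]
    exact one_ne_zero

/-- the recursion -/
theorem adj_step {i : Fin n} {r : ℕ} (hik : i ≠ k)
    (h : ∀ j, ∀ hj : j < i, P ⟨(i, j), hj⟩ ∨ (gen P).adjugate j k ∈ org {e // ¬ P e} ^ r) :
    (gen P).adjugate i k ∈ org {e // ¬ P e} ^ (r + 1) := by
  have h1 := congrFun (adj_col (det_gen P) k) i
  rw [Pi.single_eq_of_ne hik, Matrix.mulVec, dotProduct,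
    ← Finset.add_sum_erase _ _ (Finset.mem_univ i), gen_diag, one_mul] at h1
  rw [eq_neg_of_add_eq_zero_left h1]
  refine neg_mem (sum_mem (fun j hj => ?_))
  rcases lt_or_gt_of_ne (Finset.ne_of_mem_erase hj) with h2 | h2
  · rcases h j h2 with h3 | h3
    · rw [gen, dif_pos h2, dif_pos h3, zero_mul]
      exact zero_mem _
    · rw [add_comm, pow_add, pow_one]
      refine Ideal.mul_mem_mul ?_ h3
      rw [gen, dif_pos h2]
      split_ifs with h4
      · exact zero_mem _
      · rw [mem_org, constantCoeff_X]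
  · rw [gen_upper P i j h2, zero_mul]
    exact zero_mem _

end

/-! ### The multiplicity in a chart -/

theorem multAt_of (H : Hyp n a w) (hP : Pos n a u) {k l : Fin n} (hk : (u k).val = 0)
    (hl : l.val + 1 = n) {μ : ℕ} (hμ : 0 < μ)
    (h1 : (gen (PP a u)).adjugate l k ∈ org {e // ¬ PP a u e} ^ μ)
    (h2 : (gen (PP a u)).adjugate l k ∉ org {e // ¬ PP a u e} ^ (μ + 1)) : MultAt u w μ := by
  have hf0 : (gen (PP a u)).adjugate l k ≠ 0 := by
    intro h
    rw [h] at h2
    exact h2 (zero_mem _)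
  have hsq : Squarefree ((gen (PP a u)).adjugate l k) :=
    squarefree_of_degreeOf hf0 (fun e => degreeOf_adj _ e l k)
  have h3 : chartIdeal u w =
      (Ideal.span {(gen (PP a u)).adjugate l k}).comap (kill (PP a u)).toRingHom := by
    refine vanishing_eq (PP a u) _ hsq _ (fun z => ?_)
    rw [Set.mem_setOf_eq, mem_V_iff H hP hk hl z]
    refine and_congr_right (fun hz => ?_)
    rw [eval_adj_gen _ z hz]
  have hN : Nonempty {e // ¬ PP a u e} := by
    by_contra hcon
    rw [not_nonempty_iff] at hcon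
    have h4 : (gen (PP a u)).adjugate l k ∈ org {e // ¬ PP a u e} := by
      have := Ideal.pow_le_self (I := org {e // ¬ PP a u e}) hμ.ne' h1
      exact this
    rw [mem_org] at h4
    apply hf0
    rw [eq_C_of_isEmpty ((gen (PP a u)).adjugate l k), ← constantCoeff_eq, h4, C_0]
  rw [MultAt, h3]
  exact mult_of (PP a u) _ hμ h1 h2 hN

theorem mem_org_adj (P : Low n → Prop) [DecidablePred P] {k l : Fin n} (hlk : l ≠ k) :
    (gen P).adjugate l k ∈ org {e // ¬ P e} ^ 1 := by
  rw [← zero_add 1]
  refine adj_step P hlk (fun j hj => Or.inr ?_)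
  rw [pow_zero, Ideal.one_eq_top]
  exact Submodule.mem_top

end Pool.Agent.Hhelper18.MultSch
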