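import Mathlib
import Pool.Agent.Hhelper18.MS.Chart

/-! The two permutations. -/

set_option maxHeartbeats 400000

namespace Pool.Agent.Hhelper18.MultSch

open MvPolynomial Matrix

variable {n a : ℕ} {w u : Equiv.Perm (Fin n)}

theorem not_mem_three (H : Hyp n a w) (ha : 4 ≤ a) (hP : Pos n a u) {k l : Fin n}
    (hk : (u k).val = 0) (hl : l.val + 1 = n) :
    (gen (PP a u)).adjugate l k ∉ org {e // ¬ PP a u e} ^ 3 := by
  have hn := H.hn
  have hkl : k < l := by
    rw [Fin.lt_def]
    have h1 : k ≠ l := by
      rintro rfl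
      exact hP.hl k hl hk
    have h2 : k.val ≠ l.val := fun h => h1 (Fin.ext h)
    have := k.2
    omega
  have hul : ∀ m : Fin n, m ≠ l → (u m).val ≠ (u l).val :=
    fun m hm h => hm (u.injective (Fin.ext h))
  by_cases hd : PP a u ⟨(l, k), hkl⟩
  · obtain ⟨m, hkm, hml, h1, h2⟩ : ∃ (m : Fin n) (hkm : k < m) (hml : m < l),
        ¬ PP a u ⟨(m, k), hkm⟩ ∧ ¬ PP a u ⟨(l, m), hml⟩ := by
      change (k.val = 0 ∧ a ≤ (u l).val) ∨ (k.val ≤ 2 ∧ (u l).val + 1 = n) at hd
      by_cases hk0 : k.val = 0
      · -- positions of the values 1, 2, 3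
        let m1 : Fin n := u.symm ⟨1, by omega⟩
        let m2 : Fin n := u.symm ⟨2, by omega⟩
        let m3 : Fin n := u.symm ⟨3, by omega⟩
        have e1 : (u m1).val = 1 := by simp only [m1, Equiv.apply_symm_apply]
        have e2 : (u m2).val = 2 := by simp only [m2, Equiv.apply_symm_apply]
        have e3 : (u m3).val = 3 := by simp only [m3, Equiv.apply_symm_apply]
        have key : ∀ m : Fin n, (u m).val ≠ 0 → (u m).val < a → (u m).val + 1 ≠ n →
            (u m).val ≠ (u l).val → (3 ≤ m.val ∨ (u l).val + 1 ≠ n) →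
            ∃ (m : Fin n) (hkm : k < m) (hml : m < l),
              ¬ PP a u ⟨(m, k), hkm⟩ ∧ ¬ PP a u ⟨(l, m), hml⟩ := by
          intro m h0 h1 h2 h3 h4
          have h5 : m.val ≠ 0 := by
            intro h
            have : m = k := Fin.ext (h.trans hk0.symm)
            rw [this] at h0
            exact h0 hk
          have h6 : m.val ≠ l.val := by
            intro h
            have : m = l := Fin.ext h
            rw [this] at h3
            exact h3 rfl
          have hkm : k < m := by rw [Fin.lt_def]; omega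
          have hml : m < l := by rw [Fin.lt_def]; have := m.2; omega
          refine ⟨m, hkm, hml, ?_, ?_⟩
          · rintro (⟨_, h7⟩ | ⟨_, h7⟩)
            · change a ≤ (u m).val at h7
              omega
            · exact h2 h7
          · rintro (⟨h7, _⟩ | ⟨h7, h8⟩)
            · exact h5 h7
            · change m.val ≤ 2 at h7
              change (u l).val + 1 = n at h8
              omega
        have d12 : m1.val ≠ m2.val := fun h => by
          have : m1 = m2 := Fin.ext h
          rw [this] at e1
          omega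
        have d13 : m1.val ≠ m3.val := fun h => by
          have : m1 = m3 := Fin.ext h
          rw [this] at e1
          omega
        have d23 : m2.val ≠ m3.val := fun h => by
          have : m2 = m3 := Fin.ext h
          rw [this] at e2
          omega
        have z1 : m1.val ≠ 0 := fun h => by
          have : m1 = k := Fin.ext (h.trans hk0.symm)
          rw [this] at e1
          omega
        have z2 : m2.val ≠ 0 := fun h => by
          have : m2 = k := Fin.ext (h.trans hk0.symm)
          rw [this] at e2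
          omega
        have z3 : m3.val ≠ 0 := fun h => by
          have : m3 = k := Fin.ext (h.trans hk0.symm)
          rw [this] at e3
          omega
        by_cases hb : (u l).val + 1 = n
        · by_cases g1 : 3 ≤ m1.val
          · exact key m1 (by omega) (by omega) (by omega) (by omega) (Or.inl g1)
          · by_cases g2 : 3 ≤ m2.val
            · exact key m2 (by omega) (by omega) (by omega) (by omega) (Or.inl g2)
            · have g3 : 3 ≤ m3.val := by omega
              exact key m3 (by omega) (by omega) (by omega) (by omega) (Or.inl g3)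
        · exact key m1 (by omega) (by omega) (by omega) (by omega) (Or.inr hb)
      · have hd' : k.val ≤ 2 ∧ (u l).val + 1 = n := by
          rcases hd with hd | hd
          · exact absurd hd.1 hk0
          · exact hd
        let m : Fin n := ⟨3, by omega⟩
        have hm : m.val = 3 := rfl
        have hkm : k < m := by rw [Fin.lt_def]; omega
        have hml : m < l := by rw [Fin.lt_def]; omega
        have h3 := hul m hml.ne
        refine ⟨m, hkm, hml, ?_, ?_⟩
        · rintro (⟨h7, _⟩ | ⟨_, h7⟩)
          · exact hk0 h7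
          · change (u m).val + 1 = n at h7
            omega
        · rintro (⟨h7, _⟩ | ⟨h7, _⟩)
          · change m.val = 0 at h7
            omega
          · change m.val ≤ 2 at h7
            omega
    exact not_mem_two (PP a u) hkm hml h1 h2
  · intro h
    exact not_mem_one (PP a u) hkl hd (Ideal.pow_le_pow_right (by norm_num) h)

theorem mult_le_two (H : Hyp n a w) (ha : 4 ≤ a) (hu : PointMem u w) :
    ∃ e, e ≤ 2 ∧ MultAt u w e := by
  have hP := pos_of H hu
  have hn := H.hn
  let k : Fin n := u.symm ⟨0, by omega⟩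
  let l : Fin n := ⟨n - 1, by omega⟩
  have hk : (u k).val = 0 := by simp only [k, Equiv.apply_symm_apply]
  have hl : l.val + 1 = n := by
    change n - 1 + 1 = n
    omega
  have hlk : l ≠ k := by
    intro h
    exact hP.hl l hl (by rw [h]; exact hk)
  have h3 := not_mem_three H ha hP hk hl
  have h1 := mem_org_adj (PP a u) hlk
  by_cases h2 : (gen (PP a u)).adjugate l k ∈ org {e // ¬ PP a u e} ^ 2
  · exact ⟨2, le_rfl, multAt_of H hP hk hl two_pos h2 h3⟩
  · exact ⟨1, by norm_num, multAt_of H hP hk hl one_pos h1 h2⟩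

/-! ### uniqueness of the multiplicity -/

theorem HasMult.unique {R : Type} [CommRing R] {m : Ideal R} {e e' : ℕ} (h : HasMult R m e)
    (h' : HasMult R m e') : e = e' := by
  obtain ⟨Q, hQ, h1⟩ := h
  obtain ⟨Q', hQ', h2⟩ := h'
  have h3 : Q = Q' := by
    apply Polynomial.eq_of_infinite_eval_eq
    obtain ⟨N, hN⟩ := Filter.eventually_atTop.1 (hQ.and hQ')
    have h4 : Set.InjOn (fun k : ℕ => (k : ℚ)) (Set.Ici N) :=
      fun _ _ _ _ h => Nat.cast_injective h
    refine ((Set.Ici_infinite N).image h4).mono ?_
    rintro _ ⟨k, hk, rfl⟩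
    obtain ⟨⟨a, ha, ha'⟩, ⟨b, hb, hb'⟩⟩ := hN k hk
    change Q.eval (k : ℚ) = Q'.eval (k : ℚ)
    rw [ha', hb']
    have h5 : (a : ℕ∞) = b := ha.symm.trans hb
    rw [Nat.cast_inj.1 h5]
  rw [h3, h2] at h1
  exact_mod_cast h1.symm

/-! ### the permutations -/

/-- `354612` -/
def pp : Equiv.Perm (Fin 6) where
  toFun := ![2, 4, 3, 5, 0, 1]
  invFun := ![4, 5, 0, 2, 1, 3]
  left_inv := by decide
  right_inv := by decide

/-- `4657312` -/
def ww : Equiv.Perm (Fin 7) where
  toFun := ![3, 5, 4, 6, 2, 0, 1]
  invFun := ![5, 6, 4, 0, 2, 1, 3]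
  left_inv := by decide
  right_inv := by decide

theorem hyp_pp : Hyp 6 3 pp where
  hn := by decide
  ha := by decide
  h0 := by decide
  h2 := by decide
  hp := by decide
  ninv := by decide

theorem hyp_ww : Hyp 7 4 ww where
  hn := by decide
  ha := by decide
  h0 := by decide
  h2 := by decide
  hp := by decide
  ninv := by decide

theorem contains_ww : Contains ww pp :=
  ⟨![0, 1, 2, 3, 5, 6], by decide, by decide⟩

theorem not_M3_ww : ¬ M3 ww := by
  rintro ⟨u, hu, e, he, h⟩
  obtain ⟨e', he', h'⟩ := mult_le_two hyp_ww le_rfl hu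
  have := HasMult.unique h h'
  omega

theorem pointMem_pp : PointMem 1 pp := by
  refine mem_schubert hyp_pp (y := e0 6) ⟨?_, ?_, ?_, ?_⟩ (det_permMat _)
  · intro r c hc hr
    rw [permMat, Matrix.of_apply, if_neg]
    intro h
    have h1 : r.val = c.val := congrArg Fin.val h
    omega
  · intro r c hr hc
    rw [permMat, Matrix.of_apply, if_neg]
    intro h
    have h1 : r.val = c.val := congrArg Fin.val h
    omega
  · funext i
    rw [permMat_mulVec]
    rfl
  · intro r hr
    rw [e0, if_neg]
    omega

theorem adj_pp3 (j : Fin 6) (h1 : 3 ≤ j.val) : (gen (PP 3 (1 : Equiv.Perm (Fin 6)))).adjugate j 0 ∈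
    org {e // ¬ PP 3 (1 : Equiv.Perm (Fin 6)) e} ^ 2 := by
  refine adj_step _ ?_ (r := 1) (fun i hi => ?_)
  · rintro rfl
    exact absurd h1 (by decide)
  · by_cases h2 : i = 0
    · left
      left
      exact ⟨congrArg Fin.val h2, h1⟩
    · right
      exact mem_org_adj _ h2

theorem mult_pp : MultAt 1 pp 3 := by
  refine multAt_of hyp_pp (pos_of hyp_pp pointMem_pp) (k := 0) (l := 5) rfl rfl (by norm_num) ?_ ?_
  · refine adj_step _ (by decide) (r := 2) (fun i hi => ?_)
    by_cases h2 : i.val ≤ 2
    · left
      right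
      exact ⟨h2, rfl⟩
    · right
      exact adj_pp3 i (by omega)
  · refine not_mem_of_spec _ (fun i j => (i = 1 ∧ j = 0) ∨ (i = 3 ∧ j = 1) ∨ (i = 5 ∧ j = 3))
      (r := 3) (Pi.single 0 1 - Polynomial.X • Pi.single 1 1 + Polynomial.X ^ 2 • Pi.single 3 1 -
        Polynomial.X ^ 3 • Pi.single 5 1) ?_ ?_
    · have hT : ∀ i j : Fin 6, ((i = 1 ∧ j = 0) ∨ (i = 3 ∧ j = 1) ∨ (i = 5 ∧ j = 3)) →
          ∃ h : j < i, ¬ PP 3 (1 : Equiv.Perm (Fin 6)) ⟨(i, j), h⟩ := by
        rintro i j (⟨rfl, rfl⟩ | ⟨rfl, rfl⟩ | ⟨rfl, rfl⟩)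
        · exact ⟨by decide, by decide⟩
        · exact ⟨by decide, by decide⟩
        · exact ⟨by decide, by decide⟩
      funext i
      rw [Matrix.mulVec_sub, Matrix.mulVec_add, Matrix.mulVec_sub, Matrix.mulVec_smul,
        Matrix.mulVec_smul, Matrix.mulVec_smul,
        Matrix.mulVec_single_one, Matrix.mulVec_single_one, Matrix.mulVec_single_one,
        Matrix.mulVec_single_one, Pi.sub_apply, Pi.add_apply, Pi.sub_apply, Pi.smul_apply,
        Pi.smul_apply, Pi.smul_apply, Matrix.col_apply,
        Matrix.col_apply, Matrix.col_apply, Matrix.col_apply, spM_apply _ _ hT, spM_apply _ _ hT,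
        spM_apply _ _ hT, spM_apply _ _ hT, Pi.single_apply, smul_eq_mul, smul_eq_mul,
        smul_eq_mul]
      fin_cases i <;> simp <;> ring
    · rw [Pi.sub_apply, Pi.add_apply, Pi.sub_apply, Pi.smul_apply, Pi.smul_apply, Pi.smul_apply,
        Pi.single_eq_same, Pi.single_eq_of_ne (by decide), Pi.single_eq_of_ne (by decide),
        Pi.single_eq_of_ne (by decide), smul_zero, smul_zero, sub_zero, zero_add, zero_sub,
        smul_eq_mul, mul_one, Polynomial.coeff_neg, Polynomial.coeff_X_pow, if_pos rfl]
      exact neg_ne_zero.2 one_ne_zero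

theorem M3_pp : M3 pp := ⟨1, pointMem_pp, 3, le_rfl, mult_pp⟩

end Pool.Agent.Hhelper18.MultSch
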